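import Pool.Agent.V11202.Had.Grad

open Set Filter Topology MeasureTheory Metric Complex InnerProductSpace Laplacian

namespace Pool.Agent.V11202.Had

variable {u : ℂ → ℝ}

theorem second_deriv_nonpos {g : ℝ → ℝ} (hmax : IsLocalMax g 0) (hc : ContinuousAt g 0) :
    deriv (deriv g) 0 ≤ 0 := by
  by_contra hcon
  push Not at hcon
  have hmin : IsLocalMin g 0 := isLocalMin_of_deriv_deriv_pos hcon hmax.deriv_eq_zero hc
  have he : g =ᶠ[𝓝 0] fun _ => g 0 := by
    filter_upwards [hmax, hmin] with t h1 h2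
    exact le_antisymm h1 h2
  have h2 : deriv g =ᶠ[𝓝 0] fun _ => 0 := by
    have := he.deriv
    simpa using this
  rw [h2.deriv_eq] at hcon
  simp at hcon

theorem max_principle (hu : ContDiff ℝ 2 u) (hΔ : ∀ z, 0 ≤ Δ u z) {A : ℝ}
    (hA : ∀ z : ℂ, ‖z‖ = 1 → u z ≤ A) {z : ℂ} (hz : ‖z‖ ≤ 1) : u z ≤ A := by
  refine le_of_forall_pos_le_add fun η hη => ?_
  set v : ℂ → ℝ := fun z => u z + η * z.re ^ 2 with hv
  have hvc : Continuous v := by
    have := hu.continuous
    fun_prop
  obtain ⟨z₀, hz₀, hmax⟩ := (isCompact_closedBall (0 : ℂ) 1).exists_isMaxOn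
    ⟨0, mem_closedBall_self zero_le_one⟩ hvc.continuousOn
  have hre : ∀ x : ℂ, ‖x‖ ≤ 1 → x.re ^ 2 ≤ 1 := by
    intro x hx
    have := (abs_le.1 ((abs_re_le_norm x).trans hx))
    nlinarith
  have hsphere : ‖z₀‖ = 1 := by
    by_contra hne
    have hlt : ‖z₀‖ < 1 := lt_of_le_of_ne (mem_closedBall_zero_iff.1 hz₀) hne
    have hloc : IsLocalMax v z₀ := by
      filter_upwards [isOpen_ball.mem_nhds (mem_ball_zero_iff.2 hlt)] with y hy
      exact hmax (ball_subset_closedBall hy)
    have hu1 : ContDiff ℝ 1 (fderiv ℝ u) := hu.fderiv_right (by norm_num)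
    have key : ∀ e : ℂ, fderiv ℝ (fderiv ℝ u) z₀ e e + 2 * η * e.re ^ 2 ≤ 0 := by
      intro e
      set g : ℝ → ℝ := fun t => v (z₀ + t * e) with hg
      have hline : ∀ t : ℝ, HasDerivAt (fun t : ℝ => z₀ + t * e) e t := by
        intro t
        have := ((hasDerivAt_id t).ofReal_comp.mul_const e).const_add z₀
        simpa using this
      have hd1 : ∀ t : ℝ, HasDerivAt g (fderiv ℝ u (z₀ + t * e) e +
          η * (2 * (z₀ + t * e).re * e.re)) t := by
        intro t
        have h1 := ((hu.differentiable two_ne_zero (z₀ + t * e)).hasFDerivAt).comp_hasDerivAt t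
          (hline t)
        have h2 : HasDerivAt (fun t : ℝ => (z₀ + t * e).re) e.re t :=
          reCLM.hasFDerivAt.comp_hasDerivAt t (hline t)
        have h3 := (h2.pow 2).const_mul η
        have h4 := h1.add h3
        have e : fderiv ℝ u (z₀ + t * e) e + η * (2 * (z₀ + t * e).re * e.re) =
            fderiv ℝ u (z₀ + t * e) e + η * (((2 : ℕ) : ℝ) * (z₀ + t * e).re ^ (2 - 1) * e.re) := by
          norm_num
        rw [e]
        exact h4
      have hg1 : deriv g = fun t : ℝ => fderiv ℝ u (z₀ + t * e) e +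
          η * (2 * (z₀ + t * e).re * e.re) := funext fun t => (hd1 t).deriv
      have hd2 : HasDerivAt (deriv g) (fderiv ℝ (fderiv ℝ u) z₀ e e + 2 * η * e.re ^ 2) 0 := by
        rw [hg1]
        have h1 := ((hu1.differentiable one_ne_zero (z₀ + (0 : ℝ) * e)).hasFDerivAt).comp_hasDerivAt
          (0 : ℝ) (hline 0)
        have h1' : HasDerivAt (fun t : ℝ => fderiv ℝ u (z₀ + t * e) e)
            (fderiv ℝ (fderiv ℝ u) z₀ e e) 0 := by
          have := h1.clm_apply (hasDerivAt_const (0 : ℝ) e)
          simpa using this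
        have h2 : HasDerivAt (fun t : ℝ => (z₀ + t * e).re) e.re 0 :=
          reCLM.hasFDerivAt.comp_hasDerivAt 0 (hline 0)
        have h3 := ((h2.const_mul 2).mul_const e.re).const_mul η
        have e : fderiv ℝ (fderiv ℝ u) z₀ e e + 2 * η * e.re ^ 2 =
            fderiv ℝ (fderiv ℝ u) z₀ e e + η * (2 * e.re * e.re) := by ring
        rw [e]
        exact h1'.add h3
      have hlm : IsLocalMax g 0 := by
        have hcont : Tendsto (fun t : ℝ => z₀ + t * e) (𝓝 0) (𝓝 z₀) := by
          have := (hline 0).continuousAt.tendsto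
          simpa using this
        have := hcont.eventually hloc
        simpa [IsLocalMax, IsMaxFilter, hg] using this
      have := second_deriv_nonpos hlm (hd1 0).continuousAt
      rwa [hd2.deriv] at this
    have k1 := key 1
    have k2 := key I
    have h3 := hΔ z₀
    rw [laplacian_eq] at h3
    simp only [one_re, I_re] at k1 k2
    nlinarith
  have h1 : v z ≤ v z₀ := hmax (mem_closedBall_zero_iff.2 hz)
  have h2 := hA z₀ hsphere
  have h3 := hre z₀ hsphere.le
  simp only [hv] at h1
  nlinarith [sq_nonneg z.re]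

end Pool.Agent.V11202.Had
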