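import Pool.Agent.V11202.Had.Dist

open Set Filter Topology MeasureTheory

namespace Pool.Agent.V11202.Had

variable {w : ℂ → ℝ}

theorem deriv_smoothTransition_of_nonpos {x : ℝ} (hx : x ≤ 0) :
    deriv Real.smoothTransition x = 0 := by
  have : IsLocalMin Real.smoothTransition x := by
    refine Filter.Eventually.of_forall fun y => ?_
    rw [Real.smoothTransition.zero_of_nonpos hx]
    exact Real.smoothTransition.nonneg y
  exact this.deriv_eq_zero

theorem deriv_smoothTransition_of_one_le {x : ℝ} (hx : 1 ≤ x) :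
    deriv Real.smoothTransition x = 0 := by
  have : IsLocalMax Real.smoothTransition x := by
    refine Filter.Eventually.of_forall fun y => ?_
    rw [Real.smoothTransition.one_of_one_le hx]
    exact Real.smoothTransition.le_one y
  exact this.deriv_eq_zero

/-- concatenation of two curves -/
noncomputable def concat (γ₁ γ₂ : ℝ → ℂ) (t : ℝ) : ℂ :=
  γ₁ (Real.smoothTransition (2 * t)) + γ₂ (Real.smoothTransition (2 * t - 1)) - γ₂ 0

theorem concat_contDiff {γ₁ γ₂ : ℝ → ℂ} (h1 : ContDiff ℝ 1 γ₁) (h2 : ContDiff ℝ 1 γ₂) :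
    ContDiff ℝ 1 (concat γ₁ γ₂) := by
  have hs : ContDiff ℝ 1 Real.smoothTransition := Real.smoothTransition.contDiff
  unfold concat
  refine ContDiff.sub (ContDiff.add ?_ ?_) contDiff_const
  · exact h1.comp (hs.comp (contDiff_const.mul contDiff_id))
  · exact h2.comp (hs.comp ((contDiff_const.mul contDiff_id).sub contDiff_const))

theorem hasDerivAt_concat {γ₁ γ₂ : ℝ → ℂ} (h1 : ContDiff ℝ 1 γ₁) (h2 : ContDiff ℝ 1 γ₂) (t : ℝ) :
    HasDerivAt (concat γ₁ γ₂)
      ((2 * deriv Real.smoothTransition (2 * t)) • deriv γ₁ (Real.smoothTransition (2 * t)) +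
        (2 * deriv Real.smoothTransition (2 * t - 1)) •
          deriv γ₂ (Real.smoothTransition (2 * t - 1))) t := by
  have hs : ContDiff ℝ 1 Real.smoothTransition := Real.smoothTransition.contDiff
  have hd : ∀ x, HasDerivAt Real.smoothTransition (deriv Real.smoothTransition x) x := fun x =>
    (hs.differentiable one_ne_zero x).hasDerivAt
  have e1 : HasDerivAt (fun t : ℝ => 2 * t) 2 t := by
    simpa using (hasDerivAt_id t).const_mul (2 : ℝ)
  have e2 : HasDerivAt (fun t : ℝ => 2 * t - 1) 2 t := e1.sub_const 1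
  have a1 : HasDerivAt (fun t => Real.smoothTransition (2 * t))
      (deriv Real.smoothTransition (2 * t) * 2) t := (hd (2 * t)).comp t e1
  have a2 : HasDerivAt (fun t => Real.smoothTransition (2 * t - 1))
      (deriv Real.smoothTransition (2 * t - 1) * 2) t := by
    have := (hd (2 * t - 1)).comp t e2
    exact this
  have b1 := ((h1.differentiable one_ne_zero
    (Real.smoothTransition (2 * t))).hasDerivAt).scomp t a1
  have b2 := ((h2.differentiable one_ne_zero
    (Real.smoothTransition (2 * t - 1))).hasDerivAt).scomp t a2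
  have h := (b1.add b2).sub_const (γ₂ 0)
  rw [mul_comm 2 (deriv Real.smoothTransition (2 * t)),
    mul_comm 2 (deriv Real.smoothTransition (2 * t - 1))]
  exact h

theorem curveLength_concat (hw : Continuous w) {γ₁ γ₂ : ℝ → ℂ} (h1 : ContDiff ℝ 1 γ₁)
    (h2 : ContDiff ℝ 1 γ₂) (h : γ₁ 1 = γ₂ 0) :
    curveLength w (concat γ₁ γ₂) = curveLength w γ₁ + curveLength w γ₂ := by
  have hc := curveLength_integrable hw (concat_contDiff h1 h2)
  rw [← curveLength_smooth hw h1, ← curveLength_smooth hw h2]
  unfold curveLength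
  rw [← intervalIntegral.integral_add_adjacent_intervals (b := 1 / 2)
    (hc.intervalIntegrable _ _) (hc.intervalIntegrable _ _)]
  congr 1
  · have e := intervalIntegral.mul_integral_comp_mul_left (a := 0) (b := 1 / 2)
      (f := fun t => w (γ₁ (Real.smoothTransition t)) *
      (‖deriv γ₁ (Real.smoothTransition t)‖ * deriv Real.smoothTransition t)) (c := 2)
    simp only [mul_zero, mul_one_div, div_self (two_ne_zero' ℝ)] at e
    rw [← e, ← intervalIntegral.integral_const_mul]
    refine intervalIntegral.integral_congr fun t ht => ?_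
    rw [uIcc_of_le (by norm_num)] at ht
    have ht2 : 2 * t - 1 ≤ 0 := by linarith [ht.2]
    rw [(hasDerivAt_concat h1 h2 t).deriv, deriv_smoothTransition_of_nonpos ht2]
    have hv : concat γ₁ γ₂ t = γ₁ (Real.smoothTransition (2 * t)) := by
      simp [concat, Real.smoothTransition.zero_of_nonpos ht2]
    rw [hv]
    simp only [mul_zero, zero_smul, add_zero, norm_smul, Real.norm_eq_abs]
    rw [abs_of_nonneg (mul_nonneg zero_le_two (deriv_smoothTransition_nonneg _))]
    ring
  · have e := intervalIntegral.mul_integral_comp_mul_sub (a := 1 / 2) (b := 1)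
      (f := fun t => w (γ₂ (Real.smoothTransition t)) *
      (‖deriv γ₂ (Real.smoothTransition t)‖ * deriv Real.smoothTransition t)) (c := 2) (d := 1)
    norm_num at e
    rw [← e, ← intervalIntegral.integral_const_mul]
    refine intervalIntegral.integral_congr fun t ht => ?_
    rw [uIcc_of_le (by norm_num)] at ht
    have ht2 : 1 ≤ 2 * t := by linarith [ht.1]
    rw [(hasDerivAt_concat h1 h2 t).deriv, deriv_smoothTransition_of_one_le ht2]
    have hv : concat γ₁ γ₂ t = γ₂ (Real.smoothTransition (2 * t - 1)) := by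
      simp [concat, Real.smoothTransition.one_of_one_le ht2, h]
    rw [hv]
    simp only [mul_zero, zero_smul, zero_add, norm_smul, Real.norm_eq_abs]
    rw [abs_of_nonneg (mul_nonneg zero_le_two (deriv_smoothTransition_nonneg _))]
    ring

theorem riemDist_triangle (hw : Continuous w) (h0 : ∀ z, 0 ≤ w z) (p q r : ℂ) :
    riemDist w p r ≤ riemDist w p q + riemDist w q r := by
  refine le_of_forall_pos_le_add fun ε hε => ?_
  obtain ⟨γ₁, a1, a2, a3, a4⟩ := exists_curve_lt w (p := p) (q := q)
    (r := riemDist w p q + ε / 2) (by linarith)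
  obtain ⟨γ₂, b1, b2, b3, b4⟩ := exists_curve_lt w (p := q) (q := r)
    (r := riemDist w q r + ε / 2) (by linarith)
  have h := riemDist_le h0 (concat_contDiff a1 b1)
  rw [curveLength_concat hw a1 b1 (a3.trans b2.symm)] at h
  have e0 : concat γ₁ γ₂ 0 = p := by
    simp only [concat, mul_zero, zero_sub, Real.smoothTransition.zero,
      Real.smoothTransition.zero_of_nonpos (show (-1 : ℝ) ≤ 0 by norm_num), a2]
    ring
  have e1 : concat γ₁ γ₂ 1 = r := by
    have : Real.smoothTransition (2 * 1) = 1 :=
      Real.smoothTransition.one_of_one_le (by norm_num)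
    simp only [concat, this, show (2 : ℝ) * 1 - 1 = 1 by norm_num, Real.smoothTransition.one,
      a3, b3, b2]
    ring
  rw [e0, e1] at h
  linarith

/-- functions with gradient bounded by `C w` are `C`-Lipschitz -/
theorem abs_sub_le_riemDist (hw : Continuous w) {Φ : ℂ → ℝ}
    (hΦ : ContDiff ℝ 1 Φ) {C : ℝ} (hC : 0 ≤ C) (hb : ∀ z, ‖fderiv ℝ Φ z‖ ≤ C * w z) (p q : ℂ) :
    |Φ q - Φ p| ≤ C * riemDist w p q := by
  have key : ∀ γ : ℝ → ℂ, ContDiff ℝ 1 γ → |Φ (γ 1) - Φ (γ 0)| ≤ C * curveLength w γ := by
    intro γ hγ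
    have hd : ∀ t, HasDerivAt (fun t => Φ (γ t)) (fderiv ℝ Φ (γ t) (deriv γ t)) t := fun t =>
      ((hΦ.differentiable one_ne_zero (γ t)).hasFDerivAt).comp_hasDerivAt t
        (hγ.differentiable one_ne_zero t).hasDerivAt
    have hcont : Continuous fun t => fderiv ℝ Φ (γ t) (deriv γ t) :=
      ((hΦ.continuous_fderiv one_ne_zero).comp hγ.continuous).clm_apply
        (hγ.continuous_deriv le_rfl)
    have e := intervalIntegral.integral_eq_sub_of_hasDerivAt (a := 0) (b := 1)
      (fun t _ => hd t) (hcont.intervalIntegrable _ _)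
    rw [← e, ← Real.norm_eq_abs]
    refine (intervalIntegral.norm_integral_le_integral_norm zero_le_one).trans ?_
    unfold curveLength
    rw [← intervalIntegral.integral_const_mul]
    refine intervalIntegral.integral_mono_on zero_le_one (hcont.norm.intervalIntegrable _ _)
      (((curveLength_integrable hw hγ).const_mul C).intervalIntegrable _ _) fun t _ => ?_
    calc ‖fderiv ℝ Φ (γ t) (deriv γ t)‖ ≤ ‖fderiv ℝ Φ (γ t)‖ * ‖deriv γ t‖ :=
          ContinuousLinearMap.le_opNorm _ _
      _ ≤ (C * w (γ t)) * ‖deriv γ t‖ := by gcongr; exact hb _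
      _ = C * (w (γ t) * ‖deriv γ t‖) := by ring
  rcases hC.eq_or_lt with rfl | hC
  · obtain ⟨L, γ, h1, h2, h3, h4⟩ := nonempty_len w p q
    have := key γ h1
    rw [h2, h3] at this
    simpa using this
  rw [← div_le_iff₀' hC]
  refine le_csInf (nonempty_len w p q) ?_
  rintro L ⟨γ, h1, h2, h3, rfl⟩
  have := key γ h1
  rw [h2, h3] at this
  rwa [div_le_iff₀' hC]

end Pool.Agent.V11202.Had
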