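import Pool.Agent.V11202.Had.Step
import Pool.Agent.V11202.Had.MaxP
import Pool.Agent.V11202.Had.Tri

open Set Filter Topology MeasureTheory Metric Complex InnerProductSpace Laplacian

namespace Pool.Agent.V11202.Had

variable {U : ℂ → ℝ}

/-- length of a segment -/
theorem segment_len (hU : ContDiff ℝ 2 U) {z ξ : ℂ} (hz : z ≠ 0) {t : ℝ} (ht0 : 0 ≤ t)
    (hm : ∀ s, 0 ≤ s → s ≤ t → 7 / 10 ≤ Real.exp (-(U (z + z * (s * ξ)) + Real.log ‖z‖))) :
    riemDist (fun x => Real.exp (U x)) z (z + z * (t * ξ)) ≤ t * ‖ξ‖ * (10 / 7) := by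
  have hW : Continuous fun x => Real.exp (U x) := Real.continuous_exp.comp hU.continuous
  have h0 : ∀ x, 0 ≤ Real.exp (U x) := fun x => (Real.exp_pos _).le
  set γ : ℝ → ℂ := fun s => z + z * ((s * t : ℝ) * ξ) with hγ
  have hγd : ∀ s : ℝ, HasDerivAt γ (z * (t * ξ)) s := by
    intro s
    have h1 : HasDerivAt (fun s : ℝ => ((s * t : ℝ) : ℂ)) ((t : ℝ) : ℂ) s := by
      have := ((hasDerivAt_id s).mul_const t).ofReal_comp
      simpa using this
    exact ((h1.mul_const ξ).const_mul z).const_add z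
  have hγc : ContDiff ℝ 1 γ := by
    have : ContDiff ℝ 1 fun s : ℝ => ((s * t : ℝ) : ℂ) :=
      ofRealCLM.contDiff.comp (contDiff_id.mul contDiff_const)
    exact contDiff_const.add (contDiff_const.mul (this.mul contDiff_const))
  have h := riemDist_le h0 hγc
  have e0 : γ 0 = z := by simp [hγ]
  have e1 : γ 1 = z + z * (t * ξ) := by simp [hγ]
  rw [e0, e1] at h
  refine h.trans ?_
  unfold curveLength
  have hb : ∀ s ∈ Icc (0 : ℝ) 1, Real.exp (U (γ s)) * ‖deriv γ s‖ ≤ t * ‖ξ‖ * (10 / 7) := by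
    intro s hs
    rw [(hγd s).deriv]
    have h1 := hm (s * t) (mul_nonneg hs.1 ht0) (mul_le_of_le_one_left ht0 hs.2)
    have hzn : 0 < ‖z‖ := norm_pos_iff.2 hz
    have h2 : Real.exp (U (γ s)) * ‖z‖ ≤ 10 / 7 := by
      have e2 : Real.exp (-(U (γ s) + Real.log ‖z‖)) * (Real.exp (U (γ s)) * ‖z‖) = 1 := by
        rw [neg_add, Real.exp_add, Real.exp_neg (Real.log ‖z‖), Real.exp_log hzn, Real.exp_neg]
        field_simp
      have e3 : 7 / 10 ≤ Real.exp (-(U (γ s) + Real.log ‖z‖)) := h1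
      have e4 : 0 < Real.exp (U (γ s)) * ‖z‖ := by positivity
      nlinarith
    have h3 : ‖z * ((t : ℂ) * ξ)‖ = ‖z‖ * (t * ‖ξ‖) := by
      rw [norm_mul, norm_mul, norm_real, Real.norm_eq_abs, abs_of_nonneg ht0]
    rw [h3]
    calc Real.exp (U (γ s)) * (‖z‖ * (t * ‖ξ‖)) = (Real.exp (U (γ s)) * ‖z‖) * (t * ‖ξ‖) := by ring
      _ ≤ (10 / 7) * (t * ‖ξ‖) := by gcongr
      _ = t * ‖ξ‖ * (10 / 7) := by ring
  have hi := intervalIntegral.integral_mono_on (a := 0) (b := 1)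
    (f := fun s => Real.exp (U (γ s)) * ‖deriv γ s‖) (g := fun _ => t * ‖ξ‖ * (10 / 7))
    (μ := volume) zero_le_one
    ((curveLength_integrable hW hγc).intervalIntegrable _ _)
    (continuous_const.intervalIntegrable _ _) hb
  simpa using hi

/-- hypotheses on the normalised metric `exp U` -/
structure Hyp (U : ℂ → ℝ) (ε τ k : ℝ) : Prop where
  cd : ContDiff ℝ 2 U
  lap0 : ∀ z, 0 ≤ Δ U z
  lap1 : ∀ z, Δ U z ≤ ε * Real.exp (2 * U z)
  gr : ∀ z, riemDist (fun x => Real.exp (U x)) 1 z ≤ k → ‖grad U z‖ ≤ (1 + τ) * Real.exp (U z)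

/-- closeness to the metric `1 / ‖z‖` -/
def Close (U : ℂ → ℝ) (δ : ℝ) (z : ℂ) : Prop :=
  |U z + Real.log ‖z‖| ≤ δ ∧ ‖z * grad U z + 1‖ ≤ δ

/-- bootstrapping lemma -/
theorem boot {ε τ k : ℝ} (H : Hyp U ε τ k) {δ : ℝ} (hδ1 : δ ≤ 1 / 1000) (hτ0 : 0 ≤ τ)
    (hτ : τ ≤ δ) {z : ℂ} (hz : z ≠ 0) (hS : Close U δ z)
    (hR : riemDist (fun x => Real.exp (U x)) 1 z ≤ k - 1 / 2) {ξ : ℂ} (hξ : ‖ξ‖ ≤ 1 / 4) :
    ∀ t : ℝ, 0 ≤ t → t ≤ 1 →
      7 / 10 ≤ Real.exp (-(U (z + z * (t * ξ)) + Real.log ‖z‖)) := by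
  have hW : Continuous fun x => Real.exp (U x) := Real.continuous_exp.comp H.cd.continuous
  have h0 : ∀ x, 0 ≤ Real.exp (U x) := fun x => (Real.exp_pos _).le
  set m : ℝ → ℝ := fun t => Real.exp (-(U (z + z * (t * ξ)) + Real.log ‖z‖)) with hm
  have hline : ∀ t : ℝ, HasDerivAt (fun t : ℝ => z + z * (t * ξ)) (z * ξ) t := by
    intro t
    have h1 : HasDerivAt (fun s : ℝ => (s : ℂ)) 1 t := by
      simpa using (hasDerivAt_id t).ofReal_comp
    simpa using ((h1.mul_const ξ).const_mul z).const_add z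
  have hmd : ∀ t : ℝ, HasDerivAt m
      (m t * -(fderiv ℝ U (z + z * (t * ξ)) (z * ξ))) t := by
    intro t
    have h1 := ((hasFDerivAt_u H.cd (z + z * (t * ξ)))).comp_hasDerivAt t (hline t)
    exact ((h1.add_const (Real.log ‖z‖)).neg).exp
  have hmc : Continuous m := by
    rw [continuous_iff_continuousAt]
    exact fun t => (hmd t).continuousAt
  have hm0 : 99 / 100 ≤ m 0 := by
    have h1 := abs_exp_neg_sub_one hS.1 (by linarith)
    have h2 := (abs_le.1 h1).1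
    have e : m 0 = Real.exp (-(U z + Real.log ‖z‖)) := by simp [hm]
    rw [e]
    linarith
  have hzn : 0 < ‖z‖ := norm_pos_iff.2 hz
  have hδ0 : 0 ≤ δ := (abs_nonneg _).trans hS.1
  by_contra hcon
  push Not at hcon
  obtain ⟨t₁, ht₁, ht₁', hlt⟩ := hcon
  have hclosed : IsCompact (Icc (0 : ℝ) 1 ∩ {t | m t ≤ 7 / 10}) :=
    isCompact_Icc.inter_right (isClosed_le hmc continuous_const)
  obtain ⟨t₀, ⟨⟨ht₀, ht₀'⟩, hmt⟩, hleast⟩ := hclosed.exists_isLeast ⟨t₁, ⟨ht₁, ht₁'⟩, hlt.le⟩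
  have hbefore : ∀ s, 0 ≤ s → s < t₀ → 7 / 10 < m s := by
    intro s hs hst
    by_contra hc
    push Not at hc
    exact absurd (hleast ⟨⟨hs, hst.le.trans ht₀'⟩, hc⟩) (not_le.2 hst)
  have hbound : ∀ s ∈ Ico 0 t₀, ‖m s * -(fderiv ℝ U (z + z * (s * ξ)) (z * ξ))‖ ≤
      (1 + τ) * (1 / 4) := by
    intro s hs
    have h1 := segment_len H.cd (ξ := ξ) hz hs.1
      (fun s' hs0 hs' => (hbefore s' hs0 (hs'.trans_lt hs.2)).le)
    have hs1 : s ≤ 1 := hs.2.le.trans ht₀'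
    have h2 := riemDist_triangle hW h0 1 z (z + z * (s * ξ))
    have h3 : s * ‖ξ‖ * (10 / 7) ≤ 1 / 2 := by
      have : s * ‖ξ‖ ≤ 1 * (1 / 4) := mul_le_mul hs1 hξ (norm_nonneg _) zero_le_one
      linarith
    have h4 := H.gr (z + z * (s * ξ)) (by linarith)
    have h5 : ‖fderiv ℝ U (z + z * (s * ξ)) (z * ξ)‖ ≤
        (1 + τ) * Real.exp (U (z + z * (s * ξ))) * (‖z‖ * (1 / 4)) := by
      refine (ContinuousLinearMap.le_opNorm _ _).trans ?_
      rw [norm_mul]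
      have := (norm_fderiv_le_grad U (z + z * (s * ξ))).trans h4
      gcongr
    rw [norm_mul, norm_neg, Real.norm_eq_abs, abs_of_pos (Real.exp_pos _)]
    calc m s * ‖fderiv ℝ U (z + z * (s * ξ)) (z * ξ)‖ ≤
        m s * ((1 + τ) * Real.exp (U (z + z * (s * ξ))) * (‖z‖ * (1 / 4))) :=
          mul_le_mul_of_nonneg_left h5 (Real.exp_pos _).le
      _ = (1 + τ) * (1 / 4) * (m s * (Real.exp (U (z + z * (s * ξ))) * ‖z‖)) := by ring
      _ = (1 + τ) * (1 / 4) := by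
          have e2 : m s * (Real.exp (U (z + z * (s * ξ))) * ‖z‖) = 1 := by
            simp only [hm]
            rw [neg_add, Real.exp_add, Real.exp_neg (Real.log ‖z‖), Real.exp_log hzn, Real.exp_neg]
            field_simp
          rw [e2, mul_one]
  have hfin := norm_image_sub_le_of_norm_deriv_le_segment' (a := 0) (b := t₀)
    (fun x _ => (hmd x).hasDerivWithinAt) hbound t₀ ⟨ht₀, le_rfl⟩
  rw [Real.norm_eq_abs] at hfin
  have h6 := (abs_le.1 hfin).1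
  have h7 : (1 + τ) * (1 / 4) * (t₀ - 0) ≤ (1 + 1 / 1000) * (1 / 4) * 1 := by
    have : τ ≤ 1 / 1000 := by linarith
    have h8 : 0 ≤ t₀ - 0 := by linarith
    gcongr
    linarith
  have hmt' : m t₀ ≤ 7 / 10 := hmt
  linarith

/-- one step in the original coordinates -/
theorem step {ε τ k : ℝ} (H : Hyp U ε τ k) {δ : ℝ} (hδ : 0 < δ) (hδ1 : δ ≤ 1 / 1000) (hτ0 : 0 ≤ τ)
    (hτ : τ ≤ δ) (hε0 : 0 ≤ ε) (hε : 3 * ε ≤ δ) {z : ℂ} (hz : z ≠ 0) (hS : Close U δ z)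
    (hR : riemDist (fun x => Real.exp (U x)) 1 z ≤ k - 1 / 2) {ξ : ℂ} (hξ : ‖ξ‖ ≤ 1 / 8) :
    Close U (30 * δ) (z * (1 + ξ)) ∧
      riemDist (fun x => Real.exp (U x)) 1 (z * (1 + ξ)) ≤
        riemDist (fun x => Real.exp (U x)) 1 z + 1 / 2 := by
  have hW : Continuous fun x => Real.exp (U x) := Real.continuous_exp.comp H.cd.continuous
  have h0 : ∀ x, 0 ≤ Real.exp (U x) := fun x => (Real.exp_pos _).le
  have hzn : 0 < ‖z‖ := norm_pos_iff.2 hz
  have hdist : ∀ x : ℂ, ‖x‖ ≤ 1 / 4 → riemDist (fun x => Real.exp (U x)) 1 (z + z * x) ≤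
      riemDist (fun x => Real.exp (U x)) 1 z + 1 / 2 := by
    intro x hx
    have h1 := segment_len H.cd (ξ := x) hz zero_le_one
      (fun s hs0 hs1 => boot H hδ1 hτ0 hτ hz hS hR hx s hs0 hs1)
    have h2 := riemDist_triangle hW h0 1 z (z + z * ((1 : ℝ) * x))
    have h3 : 1 * ‖x‖ * (10 / 7) ≤ 1 / 2 := by linarith
    simp only [ofReal_one, one_mul] at h1 h2 h3
    linarith
  set v : ℂ → ℝ := fun x => U (z + z * x) + Real.log ‖z‖ with hv
  have hvc : ContDiff ℝ 2 v := by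
    have : ContDiff ℝ 2 fun x : ℂ => z + z * x := by fun_prop
    exact (H.cd.comp this).add contDiff_const
  have hgv : ∀ x, grad v x = z * grad U (z + z * x) := fun x => grad_comp_affine H.cd z z _ x
  have hexpv : ∀ x, Real.exp (v x) = Real.exp (U (z + z * x)) * ‖z‖ := by
    intro x
    rw [hv]
    simp only [Real.exp_add, Real.exp_log hzn]
  have hlow : ∀ x : ℂ, ‖x‖ ≤ 1 / 4 → Real.exp (v x) ≤ 10 / 7 := by
    intro x hx
    have h1 := boot H hδ1 hτ0 hτ hz hS hR hx 1 zero_le_one le_rfl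
    simp only [ofReal_one, one_mul] at h1
    have h2 : Real.exp (-(U (z + z * x) + Real.log ‖z‖)) * Real.exp (v x) = 1 := by
      rw [hv, ← Real.exp_add]; simp
    have h3 := Real.exp_pos (v x)
    nlinarith
  have hos := one_step hvc hδ hδ1 (ξ := ξ)
    (by simpa [hv] using hS.1) (by rw [hgv]; simpa using hS.2)
    (fun x hx => ?_) (fun x hx => ?_) hξ
  · obtain ⟨a1, a2⟩ := hos
    have e : z + z * ξ = z * (1 + ξ) := by ring
    have h1ξ : 1 + ξ ≠ 0 := by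
      intro h
      have : ξ = -1 := by linear_combination h
      rw [this] at hξ
      norm_num at hξ
    refine ⟨⟨?_, ?_⟩, ?_⟩
    · have h2 : Real.log ‖z * (1 + ξ)‖ = Real.log ‖z‖ + Real.log ‖1 + ξ‖ := by
        rw [norm_mul, Real.log_mul hzn.ne' (norm_ne_zero_iff.2 h1ξ)]
      rw [h2, ← e]
      have : U (z + z * ξ) + (Real.log ‖z‖ + Real.log ‖1 + ξ‖) = v ξ + Real.log ‖1 + ξ‖ := by
        simp only [hv]; ring
      rw [this]
      exact a1
    · rw [hgv, e] at a2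
      have : z * (1 + ξ) * grad U (z * (1 + ξ)) + 1 =
        (1 + ξ) * (z * grad U (z * (1 + ξ))) + 1 := by ring
      rw [this]
      exact a2
    · rw [← e]
      exact hdist ξ (by linarith)
  · have hx' : ‖x‖ ≤ 1 / 4 := by simpa using hx
    have e1 : Δ v x = ‖z‖ ^ 2 * Δ U (z + z * x) := laplacian_comp_affine H.cd z z _ x
    have e2 := H.lap0 (z + z * x)
    have e3 := H.lap1 (z + z * x)
    rw [e1, abs_of_nonneg (by positivity)]
    have e4 : Real.exp (2 * U (z + z * x)) = Real.exp (U (z + z * x)) ^ 2 := by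
      rw [← Real.exp_nat_mul]; norm_num
    calc ‖z‖ ^ 2 * Δ U (z + z * x) ≤ ‖z‖ ^ 2 * (ε * Real.exp (2 * U (z + z * x))) := by gcongr
      _ = ε * Real.exp (v x) ^ 2 := by rw [hexpv, e4]; ring
      _ ≤ ε * (10 / 7) ^ 2 := by
          have := hlow x hx'
          have := (Real.exp_pos (v x)).le
          gcongr
      _ ≤ δ := by linarith
  · have hx' : ‖x‖ ≤ 1 / 4 := by simpa using hx
    have e1 := H.gr (z + z * x) (by linarith [hdist x hx'])
    rw [hgv, norm_mul, hexpv]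
    calc ‖z‖ * ‖grad U (z + z * x)‖ ≤ ‖z‖ * ((1 + τ) * Real.exp (U (z + z * x))) := by gcongr
      _ ≤ ‖z‖ * ((1 + δ) * Real.exp (U (z + z * x))) := by
          have := (Real.exp_pos (U (z + z * x))).le
          gcongr
      _ = (1 + δ) * (Real.exp (U (z + z * x)) * ‖z‖) := by ring

/-- chaining the steps along the powers of a number close to `1` -/
theorem chain {ε τ k δ₀ : ℝ} (H : Hyp U ε τ k) (hδ : 0 < δ₀) {N : ℕ}
    (hδ1 : 30 ^ N * δ₀ ≤ 1 / 1000) (hτ0 : 0 ≤ τ) (hτ : τ ≤ δ₀) (hε0 : 0 ≤ ε) (hε : 3 * ε ≤ δ₀)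
    (h1 : U 1 = 0) (hg1 : grad U 1 = -1) (hk : (N : ℝ) / 2 ≤ k) {ζ : ℂ} (hζ : ‖ζ - 1‖ ≤ 1 / 8) :
    ∀ n ≤ N, Close U (30 ^ n * δ₀) (ζ ^ n) ∧
      riemDist (fun x => Real.exp (U x)) 1 (ζ ^ n) ≤ n / 2 := by
  have h0 : ∀ x, 0 ≤ Real.exp (U x) := fun x => (Real.exp_pos _).le
  have hζ0 : ζ ≠ 0 := by
    rintro rfl
    norm_num at hζ
  intro n
  induction n with
  | zero =>
    intro _
    refine ⟨⟨?_, ?_⟩, ?_⟩
    · simp [h1, hδ.le]
    · simp [hg1, hδ.le]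
    · simp [riemDist_self h0]
  | succ n ih =>
    intro hn
    obtain ⟨c1, c2⟩ := ih (Nat.le_of_succ_le hn)
    have hpow : (30 : ℝ) ^ n * δ₀ ≤ 1 / 1000 := by
      refine le_trans ?_ hδ1
      gcongr
      · norm_num
      · exact Nat.le_of_succ_le hn
    have hge : δ₀ ≤ 30 ^ n * δ₀ := le_mul_of_one_le_left hδ.le (one_le_pow₀ (by norm_num))
    have hnN : (n : ℝ) + 1 ≤ N := by exact_mod_cast hn
    obtain ⟨d1, d2⟩ := step H (δ := 30 ^ n * δ₀) (by positivity) hpow hτ0 (hτ.trans hge) hε0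
      (hε.trans hge) (pow_ne_zero n hζ0) c1 (by linarith) hζ
    have e : ζ ^ n * (1 + (ζ - 1)) = ζ ^ (n + 1) := by ring
    rw [e] at d1 d2
    refine ⟨?_, ?_⟩
    · have e2 : 30 * (30 ^ n * δ₀) = 30 ^ (n + 1) * δ₀ := by ring
      rwa [e2] at d1
    · push_cast
      linarith

/-- there is no such normalised metric -/
theorem no_pole {ε τ k δ₀ : ℝ} (H : Hyp U ε τ k) (hδ : 0 < δ₀)
    (hδ1 : 30 ^ 26 * δ₀ ≤ 1 / 1000) (hτ0 : 0 ≤ τ) (hτ : τ ≤ δ₀) (hε0 : 0 ≤ ε) (hε : 3 * ε ≤ δ₀)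
    (h1 : U 1 = 0) (hg1 : grad U 1 = -1) (hk : 13 ≤ k) : False := by
  have hk' : ((26 : ℕ) : ℝ) / 2 ≤ k := by norm_num; linarith
  have hcirc : ∀ z : ℂ, ‖z‖ = 1 → U z ≤ 1 / 1000 := by
    intro z hz
    set ζ : ℂ := cexp (((Complex.arg z / 26 : ℝ) : ℂ) * I) with hζ
    have hζ1 : ‖ζ - 1‖ ≤ 1 / 8 := by
      have h2 := Real.norm_exp_I_mul_ofReal_sub_one_le (x := Complex.arg z / 26)
      rw [mul_comm] at h2
      refine h2.trans ?_
      rw [Real.norm_eq_abs, abs_div]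
      have h3 := Complex.abs_arg_le_pi z
      have h4 := Real.pi_lt_d2
      rw [abs_of_pos (show (0 : ℝ) < 26 by norm_num), div_le_iff₀ (by norm_num)]
      linarith
    have hpow : ζ ^ 26 = z := by
      rw [hζ, ← Complex.exp_nat_mul]
      have e : ((26 : ℕ) : ℂ) * (((Complex.arg z / 26 : ℝ) : ℂ) * I) = (Complex.arg z : ℂ) * I := by
        push_cast; ring
      rw [e]
      have := Complex.norm_mul_exp_arg_mul_I z
      rwa [hz, ofReal_one, one_mul] at this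
    have h2 := (chain H hδ (N := 26) hδ1 hτ0 hτ hε0 hε h1 hg1 hk' hζ1 26 le_rfl).1.1
    rw [hpow, hz, Real.log_one, add_zero] at h2
    exact (le_abs_self _).trans (h2.trans hδ1)
  have hmax := max_principle H.cd H.lap0 hcirc (z := ((7 / 8 : ℝ) : ℂ))
    (by rw [norm_real, Real.norm_eq_abs, abs_of_pos (by norm_num)]; norm_num)
  have h3 := (chain H hδ (N := 26) hδ1 hτ0 hτ hε0 hε h1 hg1 hk' (ζ := ((7 / 8 : ℝ) : ℂ))
    (by
      have : (((7 / 8 : ℝ) : ℂ) - 1) = ((-(1 / 8) : ℝ) : ℂ) := by push_cast; ring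
      rw [this, norm_real, Real.norm_eq_abs, abs_neg, abs_of_pos (by norm_num)]) 1 (by norm_num)).1.1
  rw [pow_one, norm_real, Real.norm_eq_abs, abs_of_pos (show (0 : ℝ) < 7 / 8 by norm_num)] at h3
  have h4 : Real.log (7 / 8) ≤ 7 / 8 - 1 := Real.log_le_sub_one_of_pos (by norm_num)
  have h5 : (30 : ℝ) ^ 1 * δ₀ ≤ 1 / 1000 := by
    refine le_trans ?_ hδ1
    gcongr
    · norm_num
    · norm_num
  have h6 := (abs_le.1 h3).1
  linarith

end Pool.Agent.V11202.Had
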