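import Mathlib

open Set Filter Topology MeasureTheory

namespace Pool.Agent.V11202.Had

/-- Length of the curve `γ : [0,1] → ℂ` for the metric `w² (dx² + dy²)`. -/
noncomputable def curveLength (w : ℂ → ℝ) (γ : ℝ → ℂ) : ℝ :=
  ∫ t in (0 : ℝ)..1, w (γ t) * ‖deriv γ t‖

/-- Riemannian distance of the metric `w² (dx² + dy²)`: infimum of the lengths of the `C¹` curves
from `p` to `q`. -/
noncomputable def riemDist (w : ℂ → ℝ) (p q : ℂ) : ℝ :=
  sInf {L | ∃ γ : ℝ → ℂ, ContDiff ℝ 1 γ ∧ γ 0 = p ∧ γ 1 = q ∧ curveLength w γ = L}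

/-- Completeness of `(ℂ, riemDist w)`: every Cauchy sequence for `riemDist w` converges for
`riemDist w`. -/
def IsCompleteMetric (w : ℂ → ℝ) : Prop :=
  ∀ x : ℕ → ℂ, (∀ ε > 0, ∃ N, ∀ m ≥ N, ∀ n ≥ N, riemDist w (x m) (x n) < ε) →
    ∃ p, Tendsto (fun n => riemDist w (x n) p) atTop (𝓝 0)

end Pool.Agent.V11202.Had
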