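import Pool.Agent.V11202.Had.Defs

open Set Filter Topology MeasureTheory

namespace Pool.Agent.V11202.Had

variable {w : ℂ → ℝ}

theorem curveLength_integrable (hw : Continuous w) {γ : ℝ → ℂ} (hγ : ContDiff ℝ 1 γ) :
    Continuous fun t => w (γ t) * ‖deriv γ t‖ :=
  (hw.comp hγ.continuous).mul (hγ.continuous_deriv le_rfl).norm

theorem curveLength_nonneg (h0 : ∀ z, 0 ≤ w z) (γ : ℝ → ℂ) : 0 ≤ curveLength w γ :=
  intervalIntegral.integral_nonneg zero_le_one fun t _ => mul_nonneg (h0 _) (norm_nonneg _)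

theorem bddBelow_len (h0 : ∀ z, 0 ≤ w z) (p q : ℂ) :
    BddBelow {L | ∃ γ : ℝ → ℂ, ContDiff ℝ 1 γ ∧ γ 0 = p ∧ γ 1 = q ∧ curveLength w γ = L} := by
  refine ⟨0, ?_⟩
  rintro L ⟨γ, -, -, -, rfl⟩
  exact curveLength_nonneg h0 γ

theorem nonempty_len (w : ℂ → ℝ) (p q : ℂ) :
    {L | ∃ γ : ℝ → ℂ, ContDiff ℝ 1 γ ∧ γ 0 = p ∧ γ 1 = q ∧ curveLength w γ = L}.Nonempty := by
  refine ⟨_, fun t => p + (t : ℂ) * (q - p), ?_, by simp, by simp, rfl⟩
  have : ContDiff ℝ 1 fun t : ℝ => (t : ℂ) := Complex.ofRealCLM.contDiff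
  fun_prop

theorem riemDist_le (h0 : ∀ z, 0 ≤ w z) {γ : ℝ → ℂ} (hγ : ContDiff ℝ 1 γ) :
    riemDist w (γ 0) (γ 1) ≤ curveLength w γ :=
  csInf_le (bddBelow_len h0 _ _) ⟨γ, hγ, rfl, rfl, rfl⟩

theorem riemDist_nonneg (h0 : ∀ z, 0 ≤ w z) (p q : ℂ) : 0 ≤ riemDist w p q := by
  refine le_csInf (nonempty_len w p q) ?_
  rintro L ⟨γ, -, -, -, rfl⟩
  exact curveLength_nonneg h0 γ

theorem exists_curve_lt (w : ℂ → ℝ) {p q : ℂ} {r : ℝ} (h : riemDist w p q < r) :
    ∃ γ : ℝ → ℂ, ContDiff ℝ 1 γ ∧ γ 0 = p ∧ γ 1 = q ∧ curveLength w γ < r := by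
  obtain ⟨L, ⟨γ, h1, h2, h3, h4⟩, h5⟩ := exists_lt_of_csInf_lt (nonempty_len w p q) h
  exact ⟨γ, h1, h2, h3, h4 ▸ h5⟩

theorem riemDist_self (h0 : ∀ z, 0 ≤ w z) (p : ℂ) : riemDist w p p = 0 := by
  refine le_antisymm ?_ (riemDist_nonneg h0 p p)
  have h := riemDist_le h0 (γ := fun _ => p) contDiff_const
  simpa [curveLength] using h

theorem curveLength_reverse {γ : ℝ → ℂ} :
    curveLength w (fun t => γ (1 - t)) = curveLength w γ := by
  unfold curveLength
  have h : ∀ t, deriv (fun t => γ (1 - t)) t = - deriv γ (1 - t) := fun t =>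
    deriv_comp_const_sub (f := γ) 1 t
  simp only [h, norm_neg]
  have := intervalIntegral.integral_comp_sub_left (a := 0) (b := 1)
    (fun t => w (γ t) * ‖deriv γ t‖) 1
  simpa using this

theorem riemDist_comm (h0 : ∀ z, 0 ≤ w z) (p q : ℂ) : riemDist w p q = riemDist w q p := by
  have key : ∀ p q, riemDist w p q ≤ riemDist w q p := by
    intro p q
    refine le_csInf (nonempty_len w q p) ?_
    rintro L ⟨γ, h1, h2, h3, rfl⟩
    have h := riemDist_le h0 (γ := fun t => γ (1 - t)) (h1.comp (contDiff_const.sub contDiff_id))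
    rw [curveLength_reverse] at h
    simpa [h2, h3] using h
  exact le_antisymm (key p q) (key q p)

/-- smooth reparametrisation of a curve, constant outside `[0,1]` -/
theorem curveLength_smooth (hw : Continuous w) {γ : ℝ → ℂ} (hγ : ContDiff ℝ 1 γ) :
    ∫ t in (0 : ℝ)..1, w (γ (Real.smoothTransition t)) *
      (‖deriv γ (Real.smoothTransition t)‖ * deriv Real.smoothTransition t) =
    curveLength w γ := by
  unfold curveLength
  have hs : ContDiff ℝ 1 Real.smoothTransition := Real.smoothTransition.contDiff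
  have h := intervalIntegral.integral_comp_mul_deriv (a := 0) (b := 1)
    (f := Real.smoothTransition) (f' := deriv Real.smoothTransition)
    (g := fun t => w (γ t) * ‖deriv γ t‖)
    (fun x _ => (hs.differentiable one_ne_zero x).hasDerivAt)
    ((hs.continuous_deriv le_rfl).continuousOn) (curveLength_integrable hw hγ)
  simp only [Real.smoothTransition.zero, Real.smoothTransition.one] at h
  rw [← h]
  refine intervalIntegral.integral_congr fun t _ => ?_
  simp only [Function.comp]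
  ring

theorem deriv_smoothTransition_nonneg (t : ℝ) : 0 ≤ deriv Real.smoothTransition t := by
  have hmono : Monotone Real.smoothTransition := Real.smoothTransition.monotone
  exact hmono.deriv_nonneg

end Pool.Agent.V11202.Had
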