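import Pool.Agent.V11202.Had.Tri

open Set Filter Topology MeasureTheory Metric

namespace Pool.Agent.V11202.Had

variable {w : ℂ → ℝ}

/-- convergence for the Riemannian distance implies convergence in `ℂ` -/
theorem tendsto_of_riemDist (hw : Continuous w) (hpos : ∀ z, 0 < w z) {x : ℕ → ℂ} {p : ℂ}
    (h : Tendsto (fun n => riemDist w (x n) p) atTop (𝓝 0)) : Tendsto x atTop (𝓝 p) := by
  rw [Metric.tendsto_atTop]
  intro ε hε
  let f : ContDiffBump p := ⟨ε / 2, ε, by linarith, by linarith⟩
  have hf : ContDiff ℝ 1 (f : ℂ → ℝ) := f.contDiff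
  have hcs : HasCompactSupport (fderiv ℝ (f : ℂ → ℝ)) := f.hasCompactSupport.fderiv (𝕜 := ℝ)
  obtain ⟨B, hB⟩ : ∃ B, ∀ z, ‖fderiv ℝ (f : ℂ → ℝ) z‖ ≤ B :=
    (hf.continuous_fderiv one_ne_zero).bounded_above_of_compact_support hcs
  obtain ⟨z₀, -, hz₀⟩ := (isCompact_closedBall p ε).exists_isMinOn
    ⟨p, mem_closedBall_self hε.le⟩ hw.continuousOn
  have hB0 : 0 ≤ B := (norm_nonneg _).trans (hB p)
  have hm := hpos z₀
  have hb : ∀ z, ‖fderiv ℝ (f : ℂ → ℝ) z‖ ≤ (B / w z₀) * w z := by
    intro z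
    by_cases hz : z ∈ closedBall p ε
    · have h1 : w z₀ ≤ w z := hz₀ hz
      calc ‖fderiv ℝ (f : ℂ → ℝ) z‖ ≤ B := hB z
        _ = (B / w z₀) * w z₀ := by field_simp
        _ ≤ (B / w z₀) * w z := by gcongr
    · have h2 : z ∉ tsupport (f : ℂ → ℝ) := by
        rw [f.tsupport_eq]; exact hz
      have h3 : fderiv ℝ (f : ℂ → ℝ) z = 0 := by
        have := notMem_tsupport_iff_eventuallyEq.1 h2
        rw [this.fderiv_eq]
        simp
      rw [h3, norm_zero]
      have := (hpos z).le
      positivity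
  have key : ∀ n, |1 - f (x n)| ≤ (B / w z₀) * riemDist w (x n) p := by
    intro n
    have := abs_sub_le_riemDist hw hf (by positivity) hb (x n) p
    rwa [f.one_of_mem_closedBall (mem_closedBall_self (by simp only [f]; linarith))] at this
  have hlim : Tendsto (fun n => (B / w z₀) * riemDist w (x n) p) atTop (𝓝 0) := by
    simpa using h.const_mul (B / w z₀)
  obtain ⟨N, hN⟩ := (hlim.eventually (gt_mem_nhds (show (0 : ℝ) < 1 by norm_num))).exists_forall_of_atTop
  refine ⟨N, fun n hn => ?_⟩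
  have h1 := (key n).trans_lt (hN n hn)
  have h2 : 0 < f (x n) := by
    rw [abs_lt] at h1
    linarith [h1.2]
  have h3 : x n ∈ Function.support (f : ℂ → ℝ) := h2.ne'
  rw [f.support_eq] at h3
  exact h3

/-- doubling lemma -/
theorem doubling (hw : Continuous w) (hpos : ∀ z, 0 < w z) (hcomp : IsCompleteMetric w)
    {M : ℂ → ℝ} (hM : Continuous M) {x₀ : ℂ} (h0 : 0 < M x₀) {k τ : ℝ} (hk : 0 < k)
    (hτ : 0 < τ) :
    ∃ x, M x₀ ≤ M x ∧ ∀ y, riemDist w x y ≤ k / M x → M y ≤ (1 + τ) * M x := by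
  by_contra hcon
  push Not at hcon
  choose! F hF1 hF2 using hcon
  have hnn : ∀ z, 0 ≤ w z := fun z => (hpos z).le
  let x : ℕ → ℂ := fun n => F^[n] x₀
  have hx : ∀ n, x (n + 1) = F (x n) := fun n => Function.iterate_succ_apply' F n x₀
  have hge : ∀ n, M x₀ * (1 + τ) ^ n ≤ M (x n) := by
    intro n
    induction n with
    | zero => simp [x]
    | succ n ih =>
      have h1 : M x₀ ≤ M (x n) := by
        refine le_trans ?_ ih
        exact le_mul_of_one_le_right h0.le (one_le_pow₀ (by linarith))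
      rw [hx n, pow_succ]
      have := hF2 (x n) h1
      nlinarith
  have hge0 : ∀ n, M x₀ ≤ M (x n) := fun n =>
    (le_mul_of_one_le_right h0.le (one_le_pow₀ (by linarith))).trans (hge n)
  set r : ℝ := 1 / (1 + τ) with hr
  have hr0 : 0 < r := by positivity
  have hr1 : r < 1 := by
    rw [hr, div_lt_one (by positivity)]; linarith
  set C : ℝ := k / M x₀ with hCdef
  have hC0 : 0 < C := by positivity
  have hd : ∀ n, riemDist w (x n) (x (n + 1)) ≤ C * r ^ n := by
    intro n
    rw [hx n]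
    refine (hF1 (x n) (hge0 n)).trans ?_
    rw [hCdef, hr, one_div, inv_pow, ← div_eq_mul_inv, div_div]
    exact div_le_div_of_nonneg_left hk.le (by positivity) (hge n)
  have hsum : ∀ m j, riemDist w (x m) (x (m + j)) ≤ C * r ^ m * ((1 - r ^ j) / (1 - r)) := by
    intro m j
    induction j with
    | zero => simp [riemDist_self hnn]
    | succ j ih =>
      have h1 := riemDist_triangle hw hnn (x m) (x (m + j)) (x (m + j + 1))
      have h2 := hd (m + j)
      have h3 : C * r ^ m * ((1 - r ^ (j + 1)) / (1 - r)) =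
          C * r ^ m * ((1 - r ^ j) / (1 - r)) + C * r ^ (m + j) := by
        have : (1 - r) ≠ 0 := by linarith
        field_simp
        ring
      rw [h3]
      exact h1.trans (add_le_add ih h2)
  have hsum' : ∀ m j, riemDist w (x m) (x (m + j)) ≤ C * r ^ m / (1 - r) := by
    intro m j
    refine (hsum m j).trans ?_
    rw [mul_div_assoc']
    have h1r : 0 < 1 - r := by linarith
    have hrj : 0 ≤ r ^ j := by positivity
    have hCr : 0 ≤ C * r ^ m := by positivity
    refine div_le_div_of_nonneg_right ?_ h1r.le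
    nlinarith
  have hcauchy : ∀ ε > 0, ∃ N, ∀ m ≥ N, ∀ n ≥ N, riemDist w (x m) (x n) < ε := by
    intro ε hε
    have hlim : Tendsto (fun m => C * r ^ m / (1 - r)) atTop (𝓝 0) := by
      have := ((tendsto_pow_atTop_nhds_zero_of_lt_one hr0.le hr1).const_mul C).div_const (1 - r)
      simpa using this
    obtain ⟨N, hN⟩ := (hlim.eventually (gt_mem_nhds hε)).exists_forall_of_atTop
    have key : ∀ m ≥ N, ∀ n ≥ m, riemDist w (x m) (x n) < ε := by
      intro m hm n hn
      obtain ⟨j, rfl⟩ := Nat.exists_eq_add_of_le hn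
      exact (hsum' m j).trans_lt (hN m hm)
    refine ⟨N, fun m hm n hn => ?_⟩
    rcases le_total m n with h | h
    · exact key m hm n h
    · rw [riemDist_comm hnn]; exact key n hn m h
  obtain ⟨p, hp⟩ := hcomp x hcauchy
  have hxp := tendsto_of_riemDist hw hpos hp
  have hMlim : Tendsto (fun n => M (x n)) atTop (𝓝 (M p)) := (hM.tendsto p).comp hxp
  have hinf : Tendsto (fun n => M (x n)) atTop atTop := by
    refine tendsto_atTop_mono hge ?_
    exact (tendsto_pow_atTop_atTop_of_one_lt (by linarith)).const_mul_atTop h0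
  exact not_tendsto_nhds_of_tendsto_atTop hinf _ hMlim

end Pool.Agent.V11202.Had
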