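import Pool.Agent.V11202.Had.Pomp

open Set Filter Topology MeasureTheory Metric Complex InnerProductSpace Laplacian

namespace Pool.Agent.V11202.Had

/-- the complex gradient `u_x - i u_y` -/
noncomputable def grad (u : ℂ → ℝ) (z : ℂ) : ℂ :=
  (fderiv ℝ u z 1 : ℂ) - I * (fderiv ℝ u z I : ℂ)

variable {u : ℂ → ℝ}

theorem fderiv_eq_grad (u : ℂ → ℝ) (z v : ℂ) : fderiv ℝ u z v = (grad u z * v).re := by
  have h : v = v.re • (1 : ℂ) + v.im • I := by
    apply Complex.ext <;> simp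
  conv_lhs => rw [h, map_add, map_smul, map_smul]
  simp [grad]
  ring

theorem norm_fderiv_le_grad (u : ℂ → ℝ) (z : ℂ) : ‖fderiv ℝ u z‖ ≤ ‖grad u z‖ := by
  refine ContinuousLinearMap.opNorm_le_bound _ (norm_nonneg _) fun v => ?_
  rw [fderiv_eq_grad, Real.norm_eq_abs, ← norm_mul]
  exact abs_re_le_norm _

theorem grad_contDiff (hu : ContDiff ℝ 2 u) : ContDiff ℝ 1 (grad u) := by
  have h1 : ContDiff ℝ 1 (fderiv ℝ u) := hu.fderiv_right (by norm_num)
  have h2 : ∀ v : ℂ, ContDiff ℝ 1 fun z => fderiv ℝ u z v := fun v => h1.clm_apply contDiff_const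
  unfold grad
  exact (ofRealCLM.contDiff.comp (h2 1)).sub
    (contDiff_const.mul (ofRealCLM.contDiff.comp (h2 I)))

theorem fderiv_grad (hu : ContDiff ℝ 2 u) (z v : ℂ) :
    fderiv ℝ (grad u) z v =
      (fderiv ℝ (fderiv ℝ u) z v 1 : ℂ) - I * (fderiv ℝ (fderiv ℝ u) z v I : ℂ) := by
  have h1 : ContDiff ℝ 1 (fderiv ℝ u) := hu.fderiv_right (by norm_num)
  have h2 : HasFDerivAt (fderiv ℝ u) (fderiv ℝ (fderiv ℝ u) z) z :=
    (h1.differentiable one_ne_zero z).hasFDerivAt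
  have h3 : ∀ e : ℂ, HasFDerivAt (fun z => fderiv ℝ u z e)
      ((fderiv ℝ (fderiv ℝ u) z).flip e) z := by
    intro e
    have := h2.clm_apply (hasFDerivAt_const e z)
    simpa using this
  have h4 : HasFDerivAt (grad u) (ofRealCLM.comp ((fderiv ℝ (fderiv ℝ u) z).flip 1) -
      I • (ofRealCLM.comp ((fderiv ℝ (fderiv ℝ u) z).flip I))) z := by
    unfold grad
    exact (ofRealCLM.hasFDerivAt.comp z (h3 1)).sub
      ((ofRealCLM.hasFDerivAt.comp z (h3 I)).const_smul I)
  rw [h4.fderiv]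
  simp

theorem laplacian_eq (u : ℂ → ℝ) (z : ℂ) :
    Δ u z = fderiv ℝ (fderiv ℝ u) z 1 1 + fderiv ℝ (fderiv ℝ u) z I I := by
  rw [laplacian_eq_iteratedFDeriv_complexPlane]
  simp [iteratedFDeriv_two_apply]

theorem dbar_grad (hu : ContDiff ℝ 2 u) (z : ℂ) :
    fderiv ℝ (grad u) z 1 + I * fderiv ℝ (grad u) z I = (Δ u z : ℂ) := by
  rw [fderiv_grad hu, fderiv_grad hu, laplacian_eq]
  have hs : fderiv ℝ (fderiv ℝ u) z 1 I = fderiv ℝ (fderiv ℝ u) z I 1 := by
    have := (hu.contDiffAt (x := z)).isSymmSndFDerivAt (by simp)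
    exact this 1 I
  rw [hs]
  push_cast
  linear_combination (-(fderiv ℝ (fderiv ℝ u) z I I : ℂ)) * I_mul_I

/-- affine change of variables: gradient -/
theorem grad_comp_affine (hu : ContDiff ℝ 2 u) (b a : ℂ) (κ : ℝ) (z : ℂ) :
    grad (fun ξ => u (b + a * ξ) + κ) z = a * grad u (b + a * z) := by
  have h1 : HasFDerivAt (fun ξ => u (b + a * ξ) + κ)
      ((fderiv ℝ u (b + a * z)).comp ((ContinuousLinearMap.mul ℝ ℂ a))) z := by
    have e : HasFDerivAt (fun ξ : ℂ => b + a * ξ) (ContinuousLinearMap.mul ℝ ℂ a) z :=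
      ((ContinuousLinearMap.mul ℝ ℂ a).hasFDerivAt).const_add b
    exact (((hu.differentiable two_ne_zero _).hasFDerivAt).comp z e).add_const κ
  apply Complex.ext
  · simp only [grad, h1.fderiv]
    simp only [ContinuousLinearMap.comp_apply, ContinuousLinearMap.mul_apply', fderiv_eq_grad]
    simp
    ring
  · simp only [grad, h1.fderiv]
    simp only [ContinuousLinearMap.comp_apply, ContinuousLinearMap.mul_apply', fderiv_eq_grad]
    simp
    ring

/-- affine change of variables: Laplacian -/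
theorem laplacian_comp_affine (hu : ContDiff ℝ 2 u) (b a : ℂ) (κ : ℝ) (z : ℂ) :
    Δ (fun ξ => u (b + a * ξ) + κ) z = ‖a‖ ^ 2 * Δ u (b + a * z) := by
  have hv : ContDiff ℝ 2 (fun ξ => u (b + a * ξ) + κ) := by
    have : ContDiff ℝ 2 fun ξ : ℂ => b + a * ξ := by fun_prop
    exact (hu.comp this).add contDiff_const
  have h1 := dbar_grad hv z
  have h2 : grad (fun ξ => u (b + a * ξ) + κ) = fun ξ => a * grad u (b + a * ξ) :=
    funext fun ξ => grad_comp_affine hu b a κ ξ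
  have h3 : ∀ v, fderiv ℝ (grad (fun ξ => u (b + a * ξ) + κ)) z v =
      a * fderiv ℝ (grad u) (b + a * z) (a * v) := by
    intro v
    rw [h2]
    have e : HasFDerivAt (fun ξ : ℂ => b + a * ξ) (ContinuousLinearMap.mul ℝ ℂ a) z :=
      ((ContinuousLinearMap.mul ℝ ℂ a).hasFDerivAt).const_add b
    have e2 : HasFDerivAt (fun ξ => a * grad u (b + a * ξ)) _ z :=
      ((((grad_contDiff hu).differentiable one_ne_zero _).hasFDerivAt).comp z e).const_mul a
    rw [e2.fderiv]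
    simp
  rw [h3, h3] at h1
  rw [clm_apply_complex (fderiv ℝ (grad u) (b + a * z)) (a * 1),
    clm_apply_complex (fderiv ℝ (grad u) (b + a * z)) (a * I), dbar_grad hu] at h1
  have h4 : ((Δ (fun ξ => u (b + a * ξ) + κ) z : ℝ) : ℂ) =
      ((‖a‖ ^ 2 * Δ u (b + a * z) : ℝ) : ℂ) := by
    rw [← h1]
    have hn : ((‖a‖ ^ 2 : ℝ) : ℂ) = a * (starRingEnd ℂ) a := by
      rw [mul_conj, normSq_eq_norm_sq]
    have hconj : (starRingEnd ℂ) a = a.re - a.im * I := by
      apply Complex.ext <;> simp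
    rw [ofReal_mul, hn, hconj]
    simp only [mul_one, mul_im, I_re, I_im, mul_zero, add_zero]
    have ha : a = a.re + a.im * I := (re_add_im a).symm
    set G := fderiv ℝ (grad u) (b + a * z) 1
    set L : ℂ := ((Δ u (b + a * z) : ℝ) : ℂ)
    generalize (a.re : ℂ) = r at *
    generalize (a.im : ℂ) = s at *
    rw [ha]
    ring_nf
    simp only [I_sq, show I ^ 3 = -I by rw [pow_succ, I_sq]; ring,
      show I ^ 4 = 1 by rw [show (4 : ℕ) = 2 * 2 by norm_num, pow_mul, I_sq]; ring]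
    ring
  exact_mod_cast h4

end Pool.Agent.V11202.Had
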