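import Pool.Agent.V11202.Had.Chain
import Pool.Agent.V11202.Had.Doub

open Set Filter Topology MeasureTheory Metric Complex InnerProductSpace Laplacian

namespace Pool.Agent.V11202.Had

/-- scaling of the distance under an affine change of variables -/
theorem riemDist_affine {ψ : ℂ → ℝ} {b a : ℂ} (ha : a ≠ 0) (κ : ℝ)
    (p q : ℂ) :
    riemDist (fun x => Real.exp (ψ x)) (b + a * p) (b + a * q) ≤
      ‖a‖ * Real.exp (-κ) * riemDist (fun x => Real.exp (ψ (b + a * x) + κ)) p q := by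
  have h0 : ∀ x, 0 ≤ Real.exp (ψ x) := fun x => (Real.exp_pos _).le
  have hc : 0 < ‖a‖ * Real.exp (-κ) := mul_pos (norm_pos_iff.2 ha) (Real.exp_pos _)
  rw [← div_le_iff₀' hc]
  refine le_csInf (nonempty_len _ p q) ?_
  rintro L ⟨γ, h1, h2, h3, rfl⟩
  rw [div_le_iff₀' hc]
  have hγ : ContDiff ℝ 1 fun t => b + a * γ t := by fun_prop
  have h := riemDist_le h0 hγ
  simp only [h2, h3] at h
  refine h.trans (le_of_eq ?_)
  unfold curveLength
  rw [← intervalIntegral.integral_const_mul]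
  refine intervalIntegral.integral_congr fun t _ => ?_
  have hd : deriv (fun t => b + a * γ t) t = a * deriv γ t :=
    (((h1.differentiable one_ne_zero t).hasDerivAt.const_mul a).const_add b).deriv
  simp only [hd, norm_mul, Real.exp_add]
  have : Real.exp (-κ) * Real.exp κ = 1 := by rw [← Real.exp_add]; simp
  calc Real.exp (ψ (b + a * γ t)) * (‖a‖ * ‖deriv γ t‖) =
      (‖a‖ * Real.exp (ψ (b + a * γ t)) * ‖deriv γ t‖) * 1 := by ring
    _ = (‖a‖ * Real.exp (ψ (b + a * γ t)) * ‖deriv γ t‖) * (Real.exp (-κ) * Real.exp κ) := by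
        rw [this]
    _ = _ := by ring

/-- key estimate: `|∇ψ| ≤ B e^ψ` -/
theorem grad_bound {ψ : ℂ → ℝ} (hψ : ContDiff ℝ 2 ψ)
    (hcomp : IsCompleteMetric fun x => Real.exp (ψ x)) {c : ℝ} (hc : 0 < c)
    (h0 : ∀ z, 0 ≤ Δ ψ z) (h1 : ∀ z, Δ ψ z ≤ c * Real.exp (2 * ψ z)) :
    ∃ B, 0 < B ∧ ∀ z, ‖grad ψ z‖ ≤ B * Real.exp (ψ z) := by
  set δ₀ : ℝ := 1 / (1000 * 30 ^ 26) with hδ₀
  have hδ₀pos : 0 < δ₀ := by positivity
  have hδ₀' : 30 ^ 26 * δ₀ ≤ 1 / 1000 := by rw [hδ₀]; norm_num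
  set B : ℝ := 3 * c / δ₀ + 1 with hB
  have hB1 : 1 ≤ B := by
    have : 0 ≤ 3 * c / δ₀ := by positivity
    linarith
  refine ⟨B, by linarith, ?_⟩
  by_contra hcon
  push Not at hcon
  obtain ⟨x₀, hx₀⟩ := hcon
  set M : ℂ → ℝ := fun z => ‖grad ψ z‖ * Real.exp (-ψ z) with hM
  have hMc : Continuous M := by
    have h1 := (grad_contDiff hψ).continuous
    have h2 := hψ.continuous
    fun_prop
  have hMx₀ : B < M x₀ := by
    have : B = (B * Real.exp (ψ x₀)) * Real.exp (-ψ x₀) := by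
      rw [mul_assoc, ← Real.exp_add]; simp
    rw [this, hM]
    exact mul_lt_mul_of_pos_right hx₀ (Real.exp_pos _)
  obtain ⟨x, hx1, hx2⟩ := doubling (w := fun x => Real.exp (ψ x))
    (Real.continuous_exp.comp hψ.continuous) (fun z => Real.exp_pos _) hcomp hMc
    (x₀ := x₀) (by linarith) (k := 13) (τ := δ₀) (by norm_num) hδ₀pos
  have hMx : B < M x := hMx₀.trans_le hx1
  have hMxpos : 0 < M x := by linarith
  have hgx : grad ψ x ≠ 0 := by
    intro h
    simp only [hM, h, norm_zero, zero_mul] at hMxpos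
    exact lt_irrefl _ hMxpos
  set a : ℂ := -(grad ψ x)⁻¹ with ha
  have ha0 : a ≠ 0 := neg_ne_zero.2 (inv_ne_zero hgx)
  have han : ‖a‖ * Real.exp (ψ x) = 1 / M x := by
    rw [ha, norm_neg, norm_inv, hM]
    simp only [Real.exp_neg]
    have := norm_ne_zero_iff.2 hgx
    field_simp
  set U : ℂ → ℝ := fun z => ψ ((x - a) + a * z) + (-ψ x) with hU
  have hU1 : U 1 = 0 := by simp [hU]
  have hgU : grad U 1 = -1 := by
    rw [hU, grad_comp_affine hψ]
    simp only [mul_one, sub_add_cancel]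
    rw [ha]
    field_simp
  have hUc : ContDiff ℝ 2 U := by
    have : ContDiff ℝ 2 fun z : ℂ => (x - a) + a * z := by fun_prop
    exact (hψ.comp this).add contDiff_const
  have hlap : ∀ z, Δ U z = ‖a‖ ^ 2 * Δ ψ ((x - a) + a * z) := fun z =>
    laplacian_comp_affine hψ _ a _ z
  have hH : Hyp U (c / M x ^ 2) δ₀ 13 := by
    refine ⟨hUc, ?_, ?_, ?_⟩
    · intro z
      rw [hlap]
      have := h0 ((x - a) + a * z)
      positivity
    · intro z
      rw [hlap]
      calc ‖a‖ ^ 2 * Δ ψ ((x - a) + a * z) ≤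
          ‖a‖ ^ 2 * (c * Real.exp (2 * ψ ((x - a) + a * z))) := by
            gcongr; exact h1 _
        _ = c * (‖a‖ * Real.exp (ψ x)) ^ 2 * Real.exp (2 * U z) := by
            have e : Real.exp (2 * ψ ((x - a) + a * z)) =
                Real.exp (ψ x) ^ 2 * Real.exp (2 * U z) := by
              rw [← Real.exp_nat_mul, ← Real.exp_add]
              congr 1
              simp only [hU]
              push_cast
              ring
            rw [e]
            ring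
        _ = c / M x ^ 2 * Real.exp (2 * U z) := by rw [han]; ring
    · intro z hz
      have hz' := riemDist_affine (ψ := ψ) (b := x - a) ha0 (-ψ x) 1 z
      rw [neg_neg, han, mul_one, sub_add_cancel] at hz'
      have hz2 : riemDist (fun x => Real.exp (ψ x)) x (x - a + a * z) ≤ 13 / M x := by
        refine hz'.trans ?_
        calc 1 / M x * riemDist (fun x_1 => Real.exp (ψ (x - a + a * x_1) + -ψ x)) 1 z ≤
            1 / M x * 13 := mul_le_mul_of_nonneg_left hz (by positivity)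
          _ = 13 / M x := by ring
      have hz3 := hx2 _ hz2
      rw [hU, grad_comp_affine hψ, norm_mul]
      have e1 : ‖grad ψ (x - a + a * z)‖ =
          M (x - a + a * z) * Real.exp (ψ (x - a + a * z)) := by
        rw [hM]
        simp only
        rw [mul_assoc, ← Real.exp_add]
        simp
      rw [e1]
      calc ‖a‖ * (M (x - a + a * z) * Real.exp (ψ (x - a + a * z))) ≤
          ‖a‖ * ((1 + δ₀) * M x * Real.exp (ψ (x - a + a * z))) := by
            gcongr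
        _ = (1 + δ₀) * ((‖a‖ * Real.exp (ψ x)) * M x) *
            Real.exp (ψ (x - a + a * z) + -ψ x) := by
            rw [Real.exp_add, Real.exp_neg]
            field_simp
        _ = (1 + δ₀) * Real.exp (ψ (x - a + a * z) + -ψ x) := by
            rw [han]
            field_simp
  refine no_pole hH hδ₀pos hδ₀' hδ₀pos.le le_rfl (by positivity) ?_ hU1 hgU le_rfl
  rw [← mul_div_assoc, div_le_iff₀ (by positivity)]
  have h2 : 3 * c ≤ δ₀ * B := by
    rw [hB, mul_add, mul_div_cancel₀ _ hδ₀pos.ne']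
    linarith
  have h3 : B ≤ M x ^ 2 := by nlinarith
  calc 3 * c ≤ δ₀ * B := h2
    _ ≤ δ₀ * M x ^ 2 := by gcongr

/-- logarithmic lower bound for the distance -/
theorem log_le_dist {ψ : ℂ → ℝ} (hψ : ContDiff ℝ 2 ψ)
    (hcomp : IsCompleteMetric fun x => Real.exp (ψ x)) {c : ℝ} (hc : 0 < c)
    (h0 : ∀ z, 0 ≤ Δ ψ z) (h1 : ∀ z, Δ ψ z ≤ c * Real.exp (2 * ψ z)) :
    ∃ C, 0 < C ∧ ∀ z : ℂ, Real.log (1 + ‖z‖ ^ 2) / 2 ≤
      C * riemDist (fun x => Real.exp (ψ x)) z 0 := by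
  obtain ⟨B, hB, hgrad⟩ := grad_bound hψ hcomp hc h0 h1
  set A : ℝ := Real.exp (-ψ 0) with hA
  have hA0 : 0 < A := Real.exp_pos _
  have hlin : ∀ z : ℂ, Real.exp (-ψ z) ≤ A + B * ‖z‖ := by
    intro z
    have hd : ∀ x, HasFDerivAt (fun z => Real.exp (-ψ z))
        (Real.exp (-ψ x) • (-fderiv ℝ ψ x)) x := fun x => (hasFDerivAt_u hψ x).neg.exp
    have := (convex_univ (𝕜 := ℝ) (E := ℂ)).norm_image_sub_le_of_norm_hasFDerivWithin_le
      (f := fun z => Real.exp (-ψ z)) (C := B)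
      (fun x _ => (hd x).hasFDerivWithinAt) (fun x hx => ?_) (mem_univ 0) (mem_univ z)
    · rw [sub_zero, Real.norm_eq_abs] at this
      linarith [(abs_le.1 this).2]
    · rw [norm_smul, norm_neg, Real.norm_eq_abs, abs_of_pos (Real.exp_pos _)]
      calc Real.exp (-ψ x) * ‖fderiv ℝ ψ x‖ ≤ Real.exp (-ψ x) * (B * Real.exp (ψ x)) := by
            gcongr
            exact (norm_fderiv_le_grad ψ x).trans (hgrad x)
        _ = B * (Real.exp (-ψ x) * Real.exp (ψ x)) := by ring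
        _ = B := by rw [← Real.exp_add]; simp
  set Φ : ℂ → ℝ := fun z => Real.log (1 + ‖z‖ ^ 2) / 2 with hΦ
  have hpos : ∀ z : ℂ, 0 < 1 + ‖z‖ ^ 2 := fun z => by positivity
  have hΦc : ContDiff ℝ 1 Φ := by
    have : ContDiff ℝ 1 fun z : ℂ => 1 + ‖z‖ ^ 2 := contDiff_const.add (contDiff_norm_sq ℝ)
    exact (this.log fun z => (hpos z).ne').div_const 2
  have hΦd : ∀ z, ‖fderiv ℝ Φ z‖ ≤ ‖z‖ / (1 + ‖z‖ ^ 2) := by
    intro z
    have e1 : HasFDerivAt (fun z : ℂ => 1 + ‖z‖ ^ 2) (2 • innerSL ℝ z) z :=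
      ((hasStrictFDerivAt_norm_sq z).hasFDerivAt).const_add 1
    have e2 : HasFDerivAt Φ ((2 : ℝ)⁻¹ • ((1 + ‖z‖ ^ 2)⁻¹ • (2 • innerSL ℝ z))) z := by
      have := (e1.log (hpos z).ne').const_mul (2 : ℝ)⁻¹
      have e3 : Φ = fun z => (2 : ℝ)⁻¹ * Real.log (1 + ‖z‖ ^ 2) := by
        funext z; simp only [hΦ]; ring
      rw [e3]
      exact this
    rw [e2.fderiv, norm_smul, norm_smul, ← Nat.cast_smul_eq_nsmul ℝ, norm_smul, innerSL_apply_norm]
    rw [norm_inv, norm_inv, Real.norm_eq_abs, Real.norm_eq_abs, Real.norm_eq_abs,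
      abs_of_pos (hpos z)]
    rw [abs_of_pos (show (0 : ℝ) < 2 by norm_num)]
    norm_num
    rw [div_eq_inv_mul]
    exact le_of_eq (by ring)
  have hb : ∀ z, ‖fderiv ℝ Φ z‖ ≤ (A + B) * Real.exp (ψ z) := by
    intro z
    refine (hΦd z).trans ?_
    have h2 := hlin z
    have h3 : 1 ≤ (A + B * ‖z‖) * Real.exp (ψ z) := by
      have : Real.exp (-ψ z) * Real.exp (ψ z) = 1 := by rw [← Real.exp_add]; simp
      rw [← this]
      have := (Real.exp_pos (ψ z)).le
      gcongr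
    rw [div_le_iff₀ (hpos z)]
    have h4 : ‖z‖ * (A + B * ‖z‖) ≤ (A + B) * (1 + ‖z‖ ^ 2) := by
      have := norm_nonneg z
      nlinarith [sq_nonneg (‖z‖ - 1)]
    have h5 := norm_nonneg z
    have h6 := Real.exp_pos (ψ z)
    calc ‖z‖ = ‖z‖ * 1 := (mul_one _).symm
      _ ≤ ‖z‖ * ((A + B * ‖z‖) * Real.exp (ψ z)) := by gcongr
      _ = (‖z‖ * (A + B * ‖z‖)) * Real.exp (ψ z) := by ring
      _ ≤ ((A + B) * (1 + ‖z‖ ^ 2)) * Real.exp (ψ z) := by gcongr
      _ = (A + B) * Real.exp (ψ z) * (1 + ‖z‖ ^ 2) := by ring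
  refine ⟨A + B, by positivity, fun z => ?_⟩
  have h := abs_sub_le_riemDist (Real.continuous_exp.comp hψ.continuous) hΦc
    (by positivity) hb z 0
  have e0 : Φ 0 = 0 := by simp [hΦ]
  rw [e0, zero_sub, abs_neg] at h
  exact (le_abs_self _).trans h

end Pool.Agent.V11202.Had
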