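import Mathlib

open Set Filter Topology MeasureTheory Metric Complex

namespace Pool.Agent.V11202.Had

/-- differentiation under the integral sign -/
theorem hasDerivAt_param {F F' : ℝ → ℝ → ℂ} (hF : ∀ s, Continuous (F s))
    (hF' : Continuous fun p : ℝ × ℝ => F' p.1 p.2)
    (hd : ∀ s θ, HasDerivAt (fun s => F s θ) (F' s θ) s) (a b s₀ : ℝ) :
    HasDerivAt (fun s => ∫ θ in a..b, F s θ) (∫ θ in a..b, F' s₀ θ) s₀ := by
  obtain ⟨C, hC⟩ : ∃ C, ∀ p ∈ Icc (s₀ - 1) (s₀ + 1) ×ˢ uIcc a b, ‖F' p.1 p.2‖ ≤ C :=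
    (isCompact_Icc.prod isCompact_uIcc).exists_bound_of_continuousOn hF'.continuousOn
  refine (intervalIntegral.hasDerivAt_integral_of_dominated_loc_of_deriv_le
    (s := Icc (s₀ - 1) (s₀ + 1)) (bound := fun _ => C) (F' := F')
    (Icc_mem_nhds (by linarith) (by linarith)) ?_ ?_ ?_ ?_ ?_ ?_).2
  · exact Eventually.of_forall fun s => (hF s).aestronglyMeasurable
  · exact (hF s₀).intervalIntegrable _ _
  · exact (hF'.comp (Continuous.prodMk_right s₀)).aestronglyMeasurable
  · exact Eventually.of_forall fun t ht s hs => hC (s, t) ⟨hs, uIoc_subset_uIcc ht⟩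
  · exact intervalIntegrable_const
  · exact Eventually.of_forall fun t _ s _ => hd s t

/-- the value of a real-linear map at a complex number -/
theorem clm_apply_complex (L : ℂ →L[ℝ] ℂ) (v : ℂ) :
    L v = v * L 1 - I * (v.im * (L 1 + I * L I)) := by
  have h : v = v.re • (1 : ℂ) + v.im • I := by
    apply Complex.ext <;> simp
  conv_lhs => rw [h, map_add, map_smul, map_smul]
  have h2 : v * L 1 = (v.re + v.im * I) * L 1 := by rw [re_add_im]
  rw [h2]
  simp only [real_smul]
  linear_combination ((v.im : ℂ) * L I) * I_mul_I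

variable {q : ℂ → ℂ} {R δ : ℝ} {c : ℂ}

theorem pomp_deriv_bound (hq : ContDiff ℝ 1 q) (hR : 0 < R)
    (hδ : ∀ z ∈ closedBall (0 : ℂ) R, ‖fderiv ℝ q z 1 + I * fderiv ℝ q z I‖ ≤ δ)
    (hc : c ∈ ball (0 : ℂ) R) {s : ℝ} (hs : 0 < s) (hs1 : s ≤ 1) :
    ‖∫ θ in (0 : ℝ)..(2 * Real.pi), fderiv ℝ q (c + s * (circleMap 0 R θ - c))
      (circleMap 0 R θ - c) * (circleMap 0 R θ / (circleMap 0 R θ - c))‖ ≤
    2 * R * δ * (2 * Real.pi) := by
  have hw : ∀ θ, circleMap 0 R θ - c ≠ 0 := by
    intro θ h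
    rw [sub_eq_zero] at h
    rw [mem_ball_zero_iff, ← h, norm_circleMap_zero, abs_of_pos hR] at hc
    exact lt_irrefl _ hc
  have hmem : ∀ θ, c + s * (circleMap 0 R θ - c) ∈ closedBall (0 : ℂ) R := by
    intro θ
    rw [mem_closedBall_zero_iff]
    rw [mem_ball_zero_iff] at hc
    calc ‖c + s * (circleMap 0 R θ - c)‖ = ‖((1 - s : ℝ) : ℂ) * c + s * circleMap 0 R θ‖ := by
          congr 1; push_cast; ring
      _ ≤ ‖((1 - s : ℝ) : ℂ) * c‖ + ‖s * circleMap 0 R θ‖ := norm_add_le _ _
      _ = (1 - s) * ‖c‖ + s * R := by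
          rw [norm_mul, norm_mul, norm_circleMap_zero, norm_real, norm_real, Real.norm_eq_abs,
            Real.norm_eq_abs, abs_of_pos hs, abs_of_nonneg (by linarith), abs_of_pos hR]
      _ ≤ (1 - s) * R + s * R := by gcongr
      _ = R := by ring
  have hcirc : Continuous (circleMap (0 : ℂ) R) := continuous_circleMap 0 R
  set P : ℝ → ℂ := fun θ => c + s * (circleMap 0 R θ - c) with hP
  have hPc : Continuous P := by fun_prop
  set A : ℝ → ℂ := fun θ => fderiv ℝ q (P θ) 1 with hA
  set β : ℝ → ℂ := fun θ => fderiv ℝ q (P θ) 1 + I * fderiv ℝ q (P θ) I with hβ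
  have hfd : Continuous (fun θ => fderiv ℝ q (P θ)) :=
    (hq.continuous_fderiv one_ne_zero).comp hPc
  have hAc : Continuous A := hfd.clm_apply continuous_const
  have hβc : Continuous β :=
    (hfd.clm_apply continuous_const).add (continuous_const.mul (hfd.clm_apply continuous_const))
  have hβb : ∀ θ, ‖β θ‖ ≤ δ := fun θ => hδ _ (hmem θ)
  have hkc : Continuous fun θ => circleMap 0 R θ / (circleMap 0 R θ - c) :=
    hcirc.div (by fun_prop) hw
  -- integral of the tangential derivative
  have htan : ∫ θ in (0 : ℝ)..(2 * Real.pi), circleMap 0 R θ * A θ =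
      ∫ θ in (0 : ℝ)..(2 * Real.pi), ((circleMap 0 R θ).re : ℂ) * β θ := by
    have hder : ∀ θ, HasDerivAt (fun θ => q (P θ))
        (fderiv ℝ q (P θ) (s * (circleMap 0 R θ * I))) θ := by
      intro θ
      have h1 : HasDerivAt P (s * (circleMap 0 R θ * I)) θ := by
        exact (((hasDerivAt_circleMap 0 R θ).sub_const c).const_mul (s : ℂ)).const_add c
      exact ((hq.differentiable one_ne_zero (P θ)).hasFDerivAt).comp_hasDerivAt θ h1
    have hdc : Continuous fun θ => fderiv ℝ q (P θ) (s * (circleMap 0 R θ * I)) :=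
      hfd.clm_apply (by fun_prop)
    have h0 := intervalIntegral.integral_eq_sub_of_hasDerivAt (a := 0) (b := 2 * Real.pi)
      (fun θ _ => hder θ) (hdc.intervalIntegrable _ _)
    have hper : P (2 * Real.pi) = P 0 := by
      simp only [hP]
      have := periodic_circleMap (0 : ℂ) R 0
      rw [zero_add] at this
      rw [this]
    simp only [hper, sub_self] at h0
    have h1 : ∀ θ, fderiv ℝ q (P θ) (s * (circleMap 0 R θ * I)) =
        (s * I) * (circleMap 0 R θ * A θ - ((circleMap 0 R θ).re : ℂ) * β θ) := by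
      intro θ
      rw [clm_apply_complex]
      have e : (s * (circleMap 0 R θ * I)).im = s * (circleMap 0 R θ).re := by simp
      rw [e]
      simp only [hA, hβ]
      push_cast
      ring
    simp_rw [h1] at h0
    rw [intervalIntegral.integral_const_mul] at h0
    have h2 : (s * I : ℂ) ≠ 0 := mul_ne_zero (by exact_mod_cast hs.ne') I_ne_zero
    have h3 := (mul_eq_zero.1 h0).resolve_left h2
    rw [intervalIntegral.integral_sub] at h3
    · exact sub_eq_zero.1 h3
    · exact (hcirc.mul hAc).intervalIntegrable _ _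
    · exact ((continuous_ofReal.comp (continuous_re.comp hcirc)).mul hβc).intervalIntegrable _ _
  have hrew : ∀ θ, fderiv ℝ q (P θ) (circleMap 0 R θ - c) *
      (circleMap 0 R θ / (circleMap 0 R θ - c)) = circleMap 0 R θ * A θ -
      I * (((circleMap 0 R θ - c).im : ℂ) * β θ) *
        (circleMap 0 R θ / (circleMap 0 R θ - c)) := by
    intro θ
    rw [clm_apply_complex]
    have := hw θ
    simp only [hA, hβ]
    field_simp
  have hc2 : Continuous fun θ => I * (((circleMap 0 R θ - c).im : ℂ) * β θ) *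
        (circleMap 0 R θ / (circleMap 0 R θ - c)) := by
    refine (continuous_const.mul (Continuous.mul ?_ hβc)).mul hkc
    exact continuous_ofReal.comp (continuous_im.comp (by fun_prop))
  change ‖∫ θ in (0 : ℝ)..(2 * Real.pi), fderiv ℝ q (P θ) (circleMap 0 R θ - c) *
      (circleMap 0 R θ / (circleMap 0 R θ - c))‖ ≤ _
  simp_rw [hrew]
  have hi1 : IntervalIntegrable (fun θ => circleMap 0 R θ * A θ) volume 0 (2 * Real.pi) :=
    (hcirc.mul hAc).intervalIntegrable _ _
  have hi2 : IntervalIntegrable (fun θ => ((circleMap 0 R θ).re : ℂ) * β θ) volume 0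
      (2 * Real.pi) :=
    ((continuous_ofReal.comp (continuous_re.comp hcirc)).mul hβc).intervalIntegrable _ _
  have hi3 := hc2.intervalIntegrable (μ := volume) 0 (2 * Real.pi)
  rw [intervalIntegral.integral_sub hi1 hi3, htan, ← intervalIntegral.integral_sub hi2 hi3]
  have hpi : (0 : ℝ) ≤ 2 * Real.pi := by positivity
  refine (intervalIntegral.norm_integral_le_of_norm_le_const (C := 2 * R * δ) ?_).trans ?_
  · intro θ _
    have hδ0 : 0 ≤ δ := (norm_nonneg _).trans (hβb θ)
    refine (norm_sub_le _ _).trans ?_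
    have n1 : ‖((circleMap 0 R θ).re : ℂ) * β θ‖ ≤ R * δ := by
      rw [norm_mul, norm_real, Real.norm_eq_abs]
      refine mul_le_mul ?_ (hβb θ) (norm_nonneg _) hR.le
      refine (abs_re_le_norm _).trans ?_
      rw [norm_circleMap_zero, abs_of_pos hR]
    have n2 : ‖I * (((circleMap 0 R θ - c).im : ℂ) * β θ) *
        (circleMap 0 R θ / (circleMap 0 R θ - c))‖ ≤ R * δ := by
      rw [norm_mul, norm_mul, norm_mul, norm_I, one_mul, norm_real, Real.norm_eq_abs, norm_div,
        norm_circleMap_zero, abs_of_pos hR]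
      have hpos : 0 < ‖circleMap 0 R θ - c‖ := norm_pos_iff.2 (hw θ)
      calc |(circleMap 0 R θ - c).im| * ‖β θ‖ * (R / ‖circleMap 0 R θ - c‖)
          ≤ ‖circleMap 0 R θ - c‖ * δ * (R / ‖circleMap 0 R θ - c‖) := by
            gcongr
            · exact abs_im_le_norm _
            · exact hβb θ
        _ = R * δ := by field_simp
    linarith
  · rw [sub_zero, abs_of_nonneg hpi]

/-- Estimate of the Cauchy integral of a function with small `∂̄`-derivative. -/
theorem cauchy_pompeiu (hq : ContDiff ℝ 1 q) (hR : 0 < R)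
    (hδ : ∀ z ∈ closedBall (0 : ℂ) R, ‖fderiv ℝ q z 1 + I * fderiv ℝ q z I‖ ≤ δ)
    (hc : c ∈ ball (0 : ℂ) R) :
    ‖(2 * Real.pi * I : ℂ)⁻¹ * (∮ z in C(0, R), (z - c)⁻¹ * q z) - q c‖ ≤ 2 * R * δ := by
  have hw : ∀ θ, circleMap 0 R θ - c ≠ 0 := by
    intro θ h
    rw [sub_eq_zero] at h
    rw [mem_ball_zero_iff, ← h, norm_circleMap_zero, abs_of_pos hR] at hc
    exact lt_irrefl _ hc
  have hcirc : Continuous (circleMap (0 : ℂ) R) := continuous_circleMap 0 R
  have hkc : Continuous fun θ => circleMap 0 R θ / (circleMap 0 R θ - c) :=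
    hcirc.div (by fun_prop) hw
  set J : ℝ → ℂ := fun s => ∫ θ in (0 : ℝ)..(2 * Real.pi),
    q (c + s * (circleMap 0 R θ - c)) * (circleMap 0 R θ / (circleMap 0 R θ - c)) with hJ
  have hJd : ∀ s : ℝ, HasDerivAt J (∫ θ in (0 : ℝ)..(2 * Real.pi),
      fderiv ℝ q (c + s * (circleMap 0 R θ - c))
      (circleMap 0 R θ - c) * (circleMap 0 R θ / (circleMap 0 R θ - c))) s := by
    intro s
    refine hasDerivAt_param (F := fun s θ => q (c + s * (circleMap 0 R θ - c)) *
      (circleMap 0 R θ / (circleMap 0 R θ - c))) (F' := fun s θ =>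
      fderiv ℝ q (c + s * (circleMap 0 R θ - c))
      (circleMap 0 R θ - c) * (circleMap 0 R θ / (circleMap 0 R θ - c))) ?_ ?_ ?_ _ _ _
    · intro s
      exact (hq.continuous.comp (by fun_prop)).mul hkc
    · refine Continuous.mul ?_ (hkc.comp continuous_snd)
      refine ((hq.continuous_fderiv one_ne_zero).comp ?_).clm_apply ?_
      · have : Continuous fun p : ℝ × ℝ => (p.1 : ℂ) := continuous_ofReal.comp continuous_fst
        have h2 : Continuous fun p : ℝ × ℝ => circleMap 0 R p.2 := hcirc.comp continuous_snd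
        fun_prop
      · have h2 : Continuous fun p : ℝ × ℝ => circleMap 0 R p.2 := hcirc.comp continuous_snd
        fun_prop
    · intro s θ
      have h1 : HasDerivAt (fun s : ℝ => c + s * (circleMap 0 R θ - c))
          (circleMap 0 R θ - c) s := by
        have := ((hasDerivAt_id s).ofReal_comp.mul_const (circleMap 0 R θ - c)).const_add c
        simpa using this
      exact (((hq.differentiable one_ne_zero _).hasFDerivAt).comp_hasDerivAt s h1).mul_const _
  have hpi : (0 : ℝ) < 2 * Real.pi := by positivity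
  have hJ01 : ‖J 1 - J 0‖ ≤ 2 * R * δ * (2 * Real.pi) := by
    have key : ∀ ε ∈ Ioo (0 : ℝ) 1, ‖J 1 - J ε‖ ≤ 2 * R * δ * (2 * Real.pi) := by
      intro ε hε
      have h := norm_image_sub_le_of_norm_deriv_le_segment' (f := J) (a := ε) (b := 1)
        (fun x _ => (hJd x).hasDerivWithinAt)
        (fun x hx => pomp_deriv_bound hq hR hδ hc (hε.1.trans_le hx.1) hx.2.le) 1
        (right_mem_Icc.2 hε.2.le)
      refine h.trans ?_
      have hδ0 : 0 ≤ δ := (norm_nonneg _).trans (hδ 0 (mem_closedBall_self hR.le))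
      refine mul_le_of_le_one_right (by positivity) ?_
      linarith [hε.1]
    have hcont : Tendsto (fun ε => ‖J 1 - J ε‖) (𝓝[>] 0) (𝓝 ‖J 1 - J 0‖) := by
      have : ContinuousAt J 0 := (hJd 0).continuousAt
      exact ((continuousAt_const.sub this).norm.tendsto).mono_left nhdsWithin_le_nhds
    refine le_of_tendsto hcont ?_
    filter_upwards [Ioo_mem_nhdsGT (show (0 : ℝ) < 1 by norm_num)] with ε hε
    exact key ε hε
  have hcircle : ∀ f : ℂ → ℂ, (∮ z in C(0, R), (z - c)⁻¹ * f z) =
      I * ∫ θ in (0 : ℝ)..(2 * Real.pi), f (circleMap 0 R θ) *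
        (circleMap 0 R θ / (circleMap 0 R θ - c)) := by
    intro f
    rw [circleIntegral, ← intervalIntegral.integral_const_mul]
    refine intervalIntegral.integral_congr fun θ _ => ?_
    simp only [deriv_circleMap, smul_eq_mul]
    ring
  have hJ1 : J 1 = ∫ θ in (0 : ℝ)..(2 * Real.pi), q (circleMap 0 R θ) *
        (circleMap 0 R θ / (circleMap 0 R θ - c)) := by
    simp only [hJ]
    refine intervalIntegral.integral_congr fun θ _ => ?_
    simp
  have hJ0 : J 0 = 2 * Real.pi * q c := by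
    have h1 := hcircle (fun _ => 1)
    have h2 := circleIntegral.integral_sub_inv_of_mem_ball hc
    simp only [mul_one] at h1
    rw [h2] at h1
    simp only [hJ]
    have h3 : ∫ θ in (0 : ℝ)..(2 * Real.pi), (1 : ℂ) *
        (circleMap 0 R θ / (circleMap 0 R θ - c)) = 2 * Real.pi := by
      have := mul_left_cancel₀ I_ne_zero (h1.symm.trans (mul_comm (2 * Real.pi : ℂ) I))
      exact this
    have h4 : (∫ θ in (0 : ℝ)..(2 * Real.pi), q (c + ((0 : ℝ) : ℂ) * (circleMap 0 R θ - c)) *
        (circleMap 0 R θ / (circleMap 0 R θ - c))) =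
        ∫ θ in (0 : ℝ)..(2 * Real.pi), q c * ((1 : ℂ) *
        (circleMap 0 R θ / (circleMap 0 R θ - c))) := by
      refine intervalIntegral.integral_congr fun θ _ => ?_
      simp
    rw [h4, intervalIntegral.integral_const_mul, h3]
    ring
  have hfin : (2 * Real.pi * I : ℂ)⁻¹ * (∮ z in C(0, R), (z - c)⁻¹ * q z) - q c =
      (2 * Real.pi : ℂ)⁻¹ * (J 1 - J 0) := by
    rw [hcircle q, ← hJ1, hJ0]
    have hpi' : (Real.pi : ℂ) ≠ 0 := by exact_mod_cast Real.pi_ne_zero
    field_simp
  rw [hfin, norm_mul]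
  have h5 : ‖(2 * Real.pi : ℂ)⁻¹‖ = (2 * Real.pi)⁻¹ := by
    rw [norm_inv]
    congr 1
    rw [show (2 * Real.pi : ℂ) = ((2 * Real.pi : ℝ) : ℂ) by push_cast; rfl, norm_real,
      Real.norm_eq_abs, abs_of_pos hpi]
  rw [h5, inv_mul_le_iff₀ hpi]
  linarith

end Pool.Agent.V11202.Had
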