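import Pool.Agent.V11202.Had.Grad

open Set Filter Topology MeasureTheory Metric Complex InnerProductSpace Laplacian

namespace Pool.Agent.V11202.Had

variable {u : ℂ → ℝ}

theorem hasFDerivAt_u (hu : ContDiff ℝ 2 u) (z : ℂ) : HasFDerivAt u (fderiv ℝ u z) z :=
  (hu.differentiable two_ne_zero z).hasFDerivAt

/-- `exp (-u)` is almost `1`-Lipschitz -/
theorem exp_neg_lip (hu : ContDiff ℝ 2 u) {δ r : ℝ}
    (hg : ∀ z ∈ closedBall (0 : ℂ) r, ‖grad u z‖ ≤ (1 + δ) * Real.exp (u z)) {z : ℂ}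
    (hz : z ∈ closedBall (0 : ℂ) r) :
    |Real.exp (-u z) - Real.exp (-u 0)| ≤ (1 + δ) * ‖z‖ := by
  have hr : (0 : ℂ) ∈ closedBall (0 : ℂ) r := by
    rw [mem_closedBall_zero_iff] at hz ⊢
    simpa using (norm_nonneg z).trans hz
  have hd : ∀ x, HasFDerivAt (fun z => Real.exp (-u z))
      (Real.exp (-u x) • (-fderiv ℝ u x)) x := fun x => (hasFDerivAt_u hu x).neg.exp
  have := (convex_closedBall (0 : ℂ) r).norm_image_sub_le_of_norm_hasFDerivWithin_le
    (f := fun z => Real.exp (-u z)) (C := 1 + δ)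
    (fun x _ => (hd x).hasFDerivWithinAt) (fun x hx => ?_) hr hz
  · simpa using this
  · rw [norm_smul, norm_neg, Real.norm_eq_abs, abs_of_pos (Real.exp_pos _)]
    calc Real.exp (-u x) * ‖fderiv ℝ u x‖ ≤ Real.exp (-u x) * ((1 + δ) * Real.exp (u x)) := by
          gcongr
          exact (norm_fderiv_le_grad u x).trans (hg x hx)
      _ = (1 + δ) * (Real.exp (-u x) * Real.exp (u x)) := by ring
      _ = 1 + δ := by rw [← Real.exp_add]; simp

/-- holomorphic approximation -/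
theorem exists_holo (hu : ContDiff ℝ 2 u) {δ R : ℝ} (hR : 0 < R)
    (hΔ : ∀ z ∈ closedBall (0 : ℂ) R, |Δ u z| ≤ δ) :
    ∃ Q P : ℂ → ℂ, DifferentiableOn ℂ Q (ball 0 R) ∧ P 0 = u 0 ∧
      (∀ z ∈ ball (0 : ℂ) R, HasDerivAt P (Q z) z) ∧
      (∀ z ∈ ball (0 : ℂ) R, ‖Q z - grad u z‖ ≤ 2 * R * δ) ∧
      (∀ z ∈ ball (0 : ℂ) R, |(P z).re - u z| ≤ 2 * R * δ * ‖z‖) := by
  have hq := grad_contDiff hu
  have hcint : CircleIntegrable (grad u) 0 R :=
    (hq.continuous.comp (continuous_circleMap 0 R)).intervalIntegrable _ _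
  obtain ⟨R', hR'⟩ : ∃ R' : NNReal, (R' : ℝ) = R := ⟨⟨R, hR.le⟩, rfl⟩
  have hps := hasFPowerSeriesOn_cauchy_integral (R := R') (hR' ▸ hcint)
    (by rw [← NNReal.coe_pos, hR']; exact hR)
  rw [hR'] at hps
  have hQ : DifferentiableOn ℂ (fun w => (2 * Real.pi * I : ℂ)⁻¹ *
      ∮ z in C(0, R), (z - w)⁻¹ * grad u z) (ball 0 R) := by
    have h := hps.differentiableOn
    have e : Metric.eball (0 : ℂ) (R' : ENNReal) = ball 0 R := by
      rw [Metric.eball_coe, hR']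
    rw [e] at h
    exact h
  obtain ⟨P, hP0, hP⟩ := (hQ.isExactOn_ball).with_val_at 0 (u 0 : ℂ)
  have hclose : ∀ z ∈ ball (0 : ℂ) R, ‖((2 * Real.pi * I : ℂ)⁻¹ *
      ∮ z' in C(0, R), (z' - z)⁻¹ * grad u z') - grad u z‖ ≤ 2 * R * δ := by
    intro z hz
    refine cauchy_pompeiu hq hR (fun x hx => ?_) hz
    rw [dbar_grad hu, norm_real]
    exact hΔ x hx
  refine ⟨_, P, hQ, hP0, hP, hclose, ?_⟩
  intro z hz
  have h0 : (0 : ℂ) ∈ ball (0 : ℂ) R := mem_ball_self hR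
  have hd : ∀ x ∈ ball (0 : ℂ) R, HasFDerivAt (fun z => (P z).re - u z)
      (reCLM.comp ((ContinuousLinearMap.toSpanSingleton ℂ
        ((2 * Real.pi * I : ℂ)⁻¹ * ∮ z' in C(0, R), (z' - x)⁻¹ * grad u z')).restrictScalars ℝ) -
        fderiv ℝ u x) x := by
    intro x hx
    exact (reCLM.hasFDerivAt.comp x ((hP x hx).hasFDerivAt.restrictScalars ℝ)).sub
      (hasFDerivAt_u hu x)
  have := (convex_ball (0 : ℂ) R).norm_image_sub_le_of_norm_hasFDerivWithin_le
    (f := fun z => (P z).re - u z) (C := 2 * R * δ)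
    (fun x hx => (hd x hx).hasFDerivWithinAt) (fun x hx => ?_) h0 hz
  · simpa [hP0] using this
  · have hδ0 : 0 ≤ 2 * R * δ := (norm_nonneg _).trans (hclose x hx)
    refine ContinuousLinearMap.opNorm_le_bound _ hδ0 fun v => ?_
    set q' := (2 * Real.pi * I : ℂ)⁻¹ * ∮ z' in C(0, R), (z' - x)⁻¹ * grad u z'
    have e : (reCLM.comp ((ContinuousLinearMap.toSpanSingleton ℂ q').restrictScalars ℝ) -
        fderiv ℝ u x) v = ((q' - grad u x) * v).re := by
      rw [sub_apply, fderiv_eq_grad]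
      simp
      ring
    rw [e, Real.norm_eq_abs]
    refine (abs_re_le_norm _).trans ?_
    rw [norm_mul]
    gcongr
    exact hclose x hx

theorem exp_le_of_small {x : ℝ} (h0 : 0 ≤ x) (h1 : x ≤ 1 / 200) :
    Real.exp x ≤ 1 + 101 / 100 * x := by
  have h := Real.exp_bound_div_one_sub_of_interval h0 (by linarith)
  refine h.trans ?_
  rw [div_le_iff₀ (by linarith)]
  nlinarith

theorem abs_exp_neg_sub_one {x δ : ℝ} (h : |x| ≤ δ) (h1 : δ ≤ 1 / 200) :
    |Real.exp (-x) - 1| ≤ 101 / 100 * δ := by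
  have h0 : 0 ≤ δ := (abs_nonneg x).trans h
  rw [abs_le] at h ⊢
  constructor
  · have := Real.add_one_le_exp (-x)
    nlinarith
  · have e1 : Real.exp (-x) ≤ Real.exp δ := Real.exp_le_exp.2 (by linarith)
    linarith [exp_le_of_small h0 h1]

theorem abs_log_sub_log {a b m : ℝ} (hm : 0 < m) (ha : m ≤ a) (hb : m ≤ b) :
    |Real.log a - Real.log b| ≤ |a - b| / m := by
  have key : ∀ a b : ℝ, m ≤ a → m ≤ b → Real.log a - Real.log b ≤ |a - b| / m := by
    intro a b ha hb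
    have ha0 : 0 < a := hm.trans_le ha
    have hb0 : 0 < b := hm.trans_le hb
    rw [← Real.log_div ha0.ne' hb0.ne']
    have h1 := Real.log_le_sub_one_of_pos (div_pos ha0 hb0)
    have h2 : a / b - 1 = (a - b) / b := by field_simp
    rw [h2] at h1
    refine h1.trans ?_
    refine (div_le_div_of_nonneg_right (le_abs_self _) hb0.le).trans ?_
    exact div_le_div_of_nonneg_left (abs_nonneg _) hm hb
  rw [abs_le]
  constructor
  · have := key b a hb ha
    rw [abs_sub_comm] at this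
    linarith
  · exact key a b ha hb

/-- one step of the rigidity argument -/
theorem one_step (hu : ContDiff ℝ 2 u) {δ : ℝ} (hδ : 0 < δ) (hδ1 : δ ≤ 1 / 1000)
    (h0 : |u 0| ≤ δ) (hg0 : ‖grad u 0 + 1‖ ≤ δ)
    (hΔ : ∀ z ∈ closedBall (0 : ℂ) (1 / 4), |Δ u z| ≤ δ)
    (hg : ∀ z ∈ closedBall (0 : ℂ) (1 / 4), ‖grad u z‖ ≤ (1 + δ) * Real.exp (u z)) {ξ : ℂ}
    (hξ : ‖ξ‖ ≤ 1 / 8) :
    |u ξ + Real.log ‖1 + ξ‖| ≤ 30 * δ ∧ ‖(1 + ξ) * grad u ξ + 1‖ ≤ 30 * δ := by
  obtain ⟨Q, P, hQ, hP0, hP, hQq, hPu⟩ := exists_holo hu (R := 1 / 4) (by norm_num) hΔ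
  have hsub : ball (0 : ℂ) (1 / 4) ⊆ closedBall 0 (1 / 4) := ball_subset_closedBall
  have e0 : |Real.exp (-u 0) - 1| ≤ 101 / 100 * δ := abs_exp_neg_sub_one h0 (by linarith)
  have e0' := abs_le.1 e0
  -- bounds of `exp (-u)`
  have hexp : ∀ z ∈ closedBall (0 : ℂ) (1 / 4), Real.exp (-u z) ≤ 126 / 100 := by
    intro z hz
    have h1 := exp_neg_lip hu hg hz
    rw [mem_closedBall_zero_iff] at hz
    have h2 := abs_le.1 h1
    nlinarith [h2.2, e0'.2, norm_nonneg z]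
  -- the function `G`
  set G : ℂ → ℂ := fun z => -Q z * cexp (-P z) with hG
  have hPd : DifferentiableOn ℂ P (ball 0 (1 / 4)) := fun z hz =>
    (hP z hz).differentiableAt.differentiableWithinAt
  have hGd : DifferentiableOn ℂ G (ball 0 (1 / 4)) := hQ.neg.mul hPd.neg.cexp
  have hGn : ∀ z ∈ ball (0 : ℂ) (1 / 4), ‖G z‖ ≤ 1 + 2 * δ := by
    intro z hz
    have hz' := mem_ball_zero_iff.1 hz
    have h1 := hQq z hz
    have h2 := hPu z hz
    have h3 := hg z (hsub hz)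
    have h4 := hexp z (hsub hz)
    have hE : Real.exp (-(P z).re) ≤ Real.exp (-u z) * Real.exp (δ / 8) := by
      rw [← Real.exp_add, Real.exp_le_exp]
      have := (abs_le.1 h2).1
      nlinarith
    have hQn : ‖Q z‖ ≤ (1 + δ) * Real.exp (u z) + δ / 2 := by
      have : ‖Q z‖ ≤ ‖Q z - grad u z‖ + ‖grad u z‖ := by
        have := norm_add_le (Q z - grad u z) (grad u z)
        simpa using this
      linarith
    have hd8 := exp_le_of_small (x := δ / 8) (by positivity) (by linarith)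
    have hEu : Real.exp (u z) * Real.exp (-u z) = 1 := by rw [← Real.exp_add]; simp
    calc ‖G z‖ = ‖Q z‖ * Real.exp (-(P z).re) := by
          simp only [hG, norm_mul, norm_neg, Complex.norm_exp, neg_re]
      _ ≤ ((1 + δ) * Real.exp (u z) + δ / 2) * (Real.exp (-u z) * Real.exp (δ / 8)) := by
          gcongr
      _ = ((1 + δ) * (Real.exp (u z) * Real.exp (-u z)) + δ / 2 * Real.exp (-u z)) *
          Real.exp (δ / 8) := by ring
      _ ≤ ((1 + δ) * 1 + δ / 2 * (126 / 100)) * (1 + 101 / 100 * (δ / 8)) := by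
          rw [hEu]; gcongr
      _ ≤ 1 + 2 * δ := by nlinarith
  have hG0 : ‖G 0 - 1‖ ≤ 3 * δ := by
    have h1 := hQq 0 (mem_ball_self (by norm_num))
    have hv : G 0 - 1 = ((-1 : ℂ) * ((Q 0 - grad u 0) + (grad u 0 + 1))) * Real.exp (-u 0) +
        ((Real.exp (-u 0) - 1 : ℝ) : ℂ) := by
      simp only [hG, hP0]
      push_cast
      ring
    rw [hv]
    have hexp0 := hexp 0 (mem_closedBall_self (by norm_num))
    calc _ ≤ ‖((-1 : ℂ) * ((Q 0 - grad u 0) + (grad u 0 + 1))) * Real.exp (-u 0)‖ +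
          ‖((Real.exp (-u 0) - 1 : ℝ) : ℂ)‖ := norm_add_le _ _
      _ ≤ (δ / 2 + δ) * (1 + 101 / 100 * δ) + 101 / 100 * δ := by
          rw [norm_mul, norm_mul, norm_neg, norm_one, one_mul, norm_real, norm_real,
            Real.norm_eq_abs, Real.norm_eq_abs, abs_of_pos (Real.exp_pos _)]
          have h5 : ‖(Q 0 - grad u 0) + (grad u 0 + 1)‖ ≤ δ / 2 + δ := by
            refine (norm_add_le _ _).trans ?_
            linarith
          have h6 : Real.exp (-u 0) ≤ 1 + 101 / 100 * δ := by linarith [e0'.2]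
          gcongr
      _ ≤ 3 * δ := by nlinarith
  -- Borel-Caratheodory
  have hGc : ∀ z : ℂ, ‖z‖ ≤ 1 / 8 → ‖G z - 1‖ ≤ 13 * δ := by
    intro z hz
    have hzb : z ∈ ball (0 : ℂ) (1 / 4) := by
      rw [mem_ball_zero_iff]; linarith
    have hbc := borelCaratheodory_zero (f := fun z => G z - G 0) (M := 5 * δ) (R := 1 / 4)
      (z := z) (by positivity) (hGd.sub_const _) (fun x hx => ?_) (by norm_num) hzb (by simp)
    · have h1 : 2 * (5 * δ) * ‖z‖ / (1 / 4 - ‖z‖) ≤ 10 * δ := by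
        rw [div_le_iff₀ (by linarith)]
        nlinarith
      calc ‖G z - 1‖ = ‖(G z - G 0) + (G 0 - 1)‖ := by congr 1; ring
        _ ≤ ‖G z - G 0‖ + ‖G 0 - 1‖ := norm_add_le _ _
        _ ≤ 10 * δ + 3 * δ := add_le_add (hbc.trans h1) hG0
        _ = 13 * δ := by ring
    · change (G x - G 0).re ≤ 5 * δ
      rw [sub_re]
      have h1 := (re_le_norm (G x)).trans (hGn x hx)
      have h2 := (abs_le.1 ((abs_re_le_norm (G 0 - 1)).trans hG0)).1
      simp only [sub_re, one_re] at h2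
      linarith
  -- the function `E`
  set E : ℂ → ℂ := fun z => cexp (-P z) with hE
  have hEd : ∀ z ∈ ball (0 : ℂ) (1 / 4), HasDerivAt E (G z) z := by
    intro z hz
    have := (hP z hz).neg.cexp
    have e : G z = cexp (-P z) * -Q z := by
      change -Q z * cexp (-P z) = _
      ring
    rw [e]
    exact this
  have hE1 : ∀ z : ℂ, ‖z‖ ≤ 1 / 8 → ‖E z - (1 + z)‖ ≤ 3 * δ := by
    intro z hz
    have hlip := (convex_closedBall (0 : ℂ) (1 / 8)).norm_image_sub_le_of_norm_hasDerivWithin_le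
      (f := fun z => E z - z) (f' := fun z => G z - 1) (C := 13 * δ) (x := 0) (y := z)
      (fun x hx => ?_) (fun x hx => hGc x (by simpa using hx)) (by simp) (by simpa using hz)
    · have hE0 : ‖E 0 - 1‖ ≤ 101 / 100 * δ := by
        have : E 0 - 1 = ((Real.exp (-u 0) - 1 : ℝ) : ℂ) := by
          simp only [hE, hP0]; push_cast; rfl
        rw [this, norm_real]; exact e0
      calc ‖E z - (1 + z)‖ = ‖((E z - z) - (E 0 - 0)) + (E 0 - 1)‖ := by congr 1; ring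
        _ ≤ ‖(E z - z) - (E 0 - 0)‖ + ‖E 0 - 1‖ := norm_add_le _ _
        _ ≤ 13 * δ * ‖z - 0‖ + 101 / 100 * δ := add_le_add hlip hE0
        _ ≤ 13 * δ * (1 / 8) + 101 / 100 * δ := by rw [sub_zero]; gcongr
        _ ≤ 3 * δ := by linarith
    · have hxb : x ∈ ball (0 : ℂ) (1 / 4) := by
        rw [mem_closedBall_zero_iff] at hx
        rw [mem_ball_zero_iff]; linarith
      exact ((hEd x hxb).sub (hasDerivAt_id x)).hasDerivWithinAt
  have hξb : ξ ∈ ball (0 : ℂ) (1 / 4) := by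
    rw [mem_ball_zero_iff]; linarith
  have n1 : 7 / 8 ≤ ‖1 + ξ‖ := by
    have := norm_sub_norm_le (1 : ℂ) (-ξ)
    rw [sub_neg_eq_add, norm_neg, norm_one] at this
    linarith
  have n2 : ‖1 + ξ‖ ≤ 9 / 8 := by
    refine (norm_add_le _ _).trans ?_
    rw [norm_one]; linarith
  have n3 : 87 / 100 ≤ ‖E ξ‖ := by
    have h1 := hE1 ξ hξ
    have h2 := norm_sub_norm_le (1 + ξ) ((1 + ξ) - E ξ)
    rw [sub_sub_cancel, norm_sub_rev] at h2
    linarith
  have hPE : (P ξ).re = -Real.log ‖E ξ‖ := by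
    simp only [hE, Complex.norm_exp, neg_re, Real.log_exp, neg_neg]
  constructor
  · have h1 := hPu ξ hξb
    have h2 : |Real.log ‖E ξ‖ - Real.log ‖1 + ξ‖| ≤ |‖E ξ‖ - ‖1 + ξ‖| / (87 / 100) :=
      abs_log_sub_log (by norm_num) n3 (by linarith)
    have h3 : |‖E ξ‖ - ‖1 + ξ‖| ≤ 3 * δ := (abs_norm_sub_norm_le _ _).trans (hE1 ξ hξ)
    have h4 : |Real.log ‖E ξ‖ - Real.log ‖1 + ξ‖| ≤ 4 * δ := by
      refine h2.trans ?_
      rw [div_le_iff₀ (by norm_num)]
      linarith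
    have h5 : 2 * (1 / 4) * δ * ‖ξ‖ ≤ δ := by nlinarith
    rw [hPE] at h1
    rw [abs_le] at h1 h4 ⊢
    constructor <;> linarith [h1.1, h1.2, h4.1, h4.2]
  · have hE0 : E ξ ≠ 0 := exp_ne_zero _
    have h1 : (1 + ξ) * grad u ξ + 1 = (-(1 + ξ)) * (Q ξ - grad u ξ) +
        ((E ξ - (1 + ξ)) + (1 + ξ) * (1 - G ξ)) / E ξ := by
      have : G ξ = -Q ξ * E ξ := rfl
      rw [this]
      field_simp
      ring
    rw [h1]
    have h2 := hQq ξ hξb
    have h3 := hE1 ξ hξ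
    have h4 := hGc ξ hξ
    have h5 : ‖(E ξ - (1 + ξ)) + (1 + ξ) * (1 - G ξ)‖ ≤ 3 * δ + 9 / 8 * (13 * δ) := by
      refine (norm_add_le _ _).trans ?_
      rw [norm_mul, norm_sub_rev 1 (G ξ)]
      gcongr
    calc _ ≤ ‖(-(1 + ξ)) * (Q ξ - grad u ξ)‖ +
          ‖((E ξ - (1 + ξ)) + (1 + ξ) * (1 - G ξ)) / E ξ‖ := norm_add_le _ _
      _ ≤ 9 / 8 * (2 * (1 / 4) * δ) + (3 * δ + 9 / 8 * (13 * δ)) / (87 / 100) := by
          rw [norm_mul, norm_neg, norm_div]
          gcongr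
      _ ≤ 30 * δ := by
          rw [← le_sub_iff_add_le', div_le_iff₀ (by norm_num)]
          linarith

end Pool.Agent.V11202.Had
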